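import Mathlib
import Pool.Agent.Helper41.BS.ExistBM

set_option autoImplicit false

open scoped ENNReal NNReal Topology
open MeasureTheory ProbabilityTheory Set Filter

namespace Pool.Agent.H712P

/-- everywhere continuous Brownian motion started at `0` -/
structure NBM {Ω : Type*} [MeasurableSpace Ω] (P : Measure Ω) (W : ℝ≥0 → Ω → ℝ) : Prop where
  meas : ∀ t, Measurable (W t)
  cont : ∀ ω, Continuous (fun t => W t ω)
  zero : ∀ ω, W 0 ω = 0
  pre : IsPreBrownianReal W P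

theorem exists_nbm : ∃ (Ω : Type) (_ : MeasurableSpace Ω) (P : Measure Ω)
    (_ : IsProbabilityMeasure P) (W : ℝ≥0 → Ω → ℝ), NBM P W := by
  obtain ⟨Ω, mΩ, P, hP, B, hB⟩ := Pool.Agent.Helper41.BS.exists_bm2_pre
  classical
  have h1 : ∀ᵐ ω ∂P, Continuous (fun t => B 0 t ω) := (hB.bm 0).cont
  have h2 : ∀ᵐ ω ∂P, B 0 0 ω = 0 := (hB.bm 0).toIsPreBrownianReal.eval_zero_ae_eq_zero
  have h3 : ∀ᵐ ω ∂P, Continuous (fun t => B 0 t ω) ∧ B 0 0 ω = 0 := h1.and h2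
  obtain ⟨N, hN1, hN2, hN3⟩ := exists_measurable_superset_of_null (ae_iff.1 h3)
  have hN4 : ∀ ω, ω ∉ N → Continuous (fun t => B 0 t ω) ∧ B 0 0 ω = 0 := by
    intro ω hω
    by_contra hcon
    exact hω (hN1 hcon)
  have hN5 : ∀ᵐ ω ∂P, ω ∉ N := measure_eq_zero_iff_ae_notMem.1 hN3
  refine ⟨Ω, mΩ, P, hP, fun t ω => if ω ∈ N then 0 else B 0 t ω, ?_, ?_, ?_, ?_⟩
  · intro t
    exact Measurable.ite hN2 measurable_const (hB.meas 0 t)
  · intro ω
    by_cases hω : ω ∈ N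
    · simp only [if_pos hω]
      exact continuous_const
    · simp only [if_neg hω]
      exact (hN4 ω hω).1
  · intro ω
    by_cases hω : ω ∈ N
    · simp only [if_pos hω]
    · simp only [if_neg hω]
      exact (hN4 ω hω).2
  · refine (hB.bm 0).toIsPreBrownianReal.congr fun t => ?_
    filter_upwards [hN5] with ω hω
    simp only [if_neg hω]

/-- running maximum of a path -/
noncomputable def rmax (w : ℝ≥0 → ℝ) (h : ℝ≥0) : ℝ := sSup (w '' Icc 0 h)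

lemma le_rmax {w : ℝ≥0 → ℝ} (hw : Continuous w) {u h : ℝ≥0} (hu : u ≤ h) : w u ≤ rmax w h :=
  le_csSup ((isCompact_Icc.image hw).bddAbove) ⟨u, ⟨zero_le, hu⟩, rfl⟩

lemma exists_rmax {w : ℝ≥0 → ℝ} (hw : Continuous w) (h : ℝ≥0) : ∃ u ≤ h, w u = rmax w h := by
  obtain ⟨u, hu, he⟩ := (isCompact_Icc (a := (0:ℝ≥0)) (b := h)).exists_sSup_image_eq
    ⟨0, le_rfl, zero_le⟩ hw.continuousOn
  exact ⟨u, hu.2, he.symm⟩

lemma lt_rmax_iff {w : ℝ≥0 → ℝ} (hw : Continuous w) {y : ℝ} {h : ℝ≥0} :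
    y < rmax w h ↔ ∃ u ≤ h, y < w u := by
  constructor
  · intro hy
    obtain ⟨u, hu, he⟩ := exists_rmax hw h
    exact ⟨u, hu, by rw [he]; exact hy⟩
  · rintro ⟨u, hu, hy⟩
    exact hy.trans_le (le_rmax hw hu)

lemma rmax_le_iff {w : ℝ≥0 → ℝ} (hw : Continuous w) {y : ℝ} {h : ℝ≥0} :
    rmax w h ≤ y ↔ ∀ u ≤ h, w u ≤ y := by
  rw [← not_lt, lt_rmax_iff hw]
  push Not
  rfl

/-- dyadic grid of `[0, h]` -/
noncomputable def gp (h : ℝ≥0) (n k : ℕ) : ℝ≥0 := h * k / 2 ^ n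

lemma gp_zero (h : ℝ≥0) (n : ℕ) : gp h n 0 = 0 := by simp [gp]

lemma gp_le (h : ℝ≥0) {n k : ℕ} (hk : k ≤ 2 ^ n) : gp h n k ≤ h := by
  unfold gp
  rw [div_le_iff₀ (by positivity)]
  gcongr
  exact_mod_cast hk

lemma gp_mono (h : ℝ≥0) (n : ℕ) {j k : ℕ} (hk : j ≤ k) : gp h n j ≤ gp h n k := by
  unfold gp
  gcongr

lemma gp_succ (h : ℝ≥0) (n k : ℕ) : gp h n (k + 1) = gp h n k + h / 2 ^ n := by
  unfold gp
  push_cast
  rw [mul_add, mul_one, add_div]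

lemma tendsto_mesh (h : ℝ≥0) : Tendsto (fun n : ℕ => ((h / 2 ^ n : ℝ≥0) : ℝ)) atTop (𝓝 0) := by
  have h1 : Tendsto (fun n : ℕ => (h : ℝ) * (1 / 2 : ℝ) ^ n) atTop (𝓝 ((h : ℝ) * 0)) :=
    (tendsto_pow_atTop_nhds_zero_of_lt_one (by norm_num) (by norm_num)).const_mul _
  rw [mul_zero] at h1
  refine h1.congr fun n => ?_
  push_cast
  rw [one_div, inv_pow]
  rfl

lemma grid_exists {w : ℝ≥0 → ℝ} (hw : Continuous w) {y : ℝ} {h u : ℝ≥0} (hu : u ≤ h)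
    (hy : y < w u) : ∀ᶠ n : ℕ in atTop, ∃ k ≤ 2 ^ n, y < w (gp h n k) := by
  have h1 : ∀ᶠ v in 𝓝 u, y < w v := (hw.tendsto u).eventually (lt_mem_nhds hy)
  rw [Metric.eventually_nhds_iff] at h1
  obtain ⟨δ, hδ, h1⟩ := h1
  have h2 : ∀ᶠ n : ℕ in atTop, ((h / 2 ^ n : ℝ≥0) : ℝ) < δ := by
    have := (tendsto_mesh h).eventually (gt_mem_nhds hδ)
    exact this
  filter_upwards [h2] with n hn
  rcases eq_or_ne h 0 with rfl | hh
  · refine ⟨0, Nat.zero_le _, ?_⟩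
    have : u = 0 := le_antisymm hu zero_le
    rw [gp_zero, ← this]
    exact hy
  have hh' : 0 < h := pos_of_ne_zero hh
  refine ⟨⌊u * 2 ^ n / h⌋₊, ?_, ?_⟩
  · have h3 : u * 2 ^ n / h ≤ (2 ^ n : ℕ) := by
      rw [div_le_iff₀ hh']
      push_cast
      rw [mul_comm]
      gcongr
    exact Nat.floor_le_of_le h3
  · apply h1
    have h4 : (⌊u * 2 ^ n / h⌋₊ : ℝ≥0) ≤ u * 2 ^ n / h := Nat.floor_le zero_le
    have h5 : u * 2 ^ n / h < (⌊u * 2 ^ n / h⌋₊ : ℝ≥0) + 1 := Nat.lt_floor_add_one _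
    have h4' : gp h n ⌊u * 2 ^ n / h⌋₊ ≤ u := by
      unfold gp
      rw [div_le_iff₀ (by positivity)]
      rw [le_div_iff₀ hh'] at h4
      rw [mul_comm h]
      exact h4
    have h5' : u < gp h n ⌊u * 2 ^ n / h⌋₊ + h / 2 ^ n := by
      rw [← gp_succ]
      unfold gp
      rw [lt_div_iff₀ (by positivity)]
      rw [div_lt_iff₀ hh'] at h5
      push_cast
      rw [mul_comm h]
      exact h5
    rw [dist_comm, NNReal.dist_eq, abs_of_nonneg (sub_nonneg.2 (by exact_mod_cast h4'))]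
    have h6 : (u : ℝ) < gp h n ⌊u * 2 ^ n / h⌋₊ + ((h / 2 ^ n : ℝ≥0) : ℝ) := by
      exact_mod_cast h5'
    linarith

variable {Ω : Type*} [mΩ : MeasurableSpace Ω] {P : Measure Ω} {W : ℝ≥0 → Ω → ℝ}

/-- the past up to time `s` -/
@[reducible] def Pst (W : ℝ≥0 → Ω → ℝ) (s : ℝ≥0) : MeasurableSpace Ω :=
  MeasurableSpace.comap (fun ω (u : Set.Iic s) => W u ω) inferInstance

/-- the increments after time `s` -/
@[reducible] def Shf (W : ℝ≥0 → Ω → ℝ) (s : ℝ≥0) : MeasurableSpace Ω :=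
  MeasurableSpace.comap (fun ω (t : ℝ≥0) => W (s + t) ω - W s ω) inferInstance

omit mΩ in
lemma meas_pst {s u : ℝ≥0} (hu : u ≤ s) : Measurable[Pst W s] (W u) := by
  have h1 : Measurable[Pst W s] (fun ω (u : Set.Iic s) => W u ω) := comap_measurable _
  exact (measurable_pi_apply (⟨u, hu⟩ : Set.Iic s)).comp h1

omit mΩ in
lemma meas_shf {s u : ℝ≥0} : Measurable[Shf W s] (fun ω => W (s + u) ω - W s ω) := by
  have h1 : Measurable[Shf W s] (fun ω (t : ℝ≥0) => W (s + t) ω - W s ω) := comap_measurable _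
  exact (measurable_pi_apply u).comp h1

lemma pst_le (hW : NBM P W) (s : ℝ≥0) : Pst W s ≤ mΩ := by
  rintro _ ⟨A, hA, rfl⟩
  exact (measurable_pi_lambda _ fun u : Set.Iic s => hW.meas u) hA

lemma shf_le (hW : NBM P W) (s : ℝ≥0) : Shf W s ≤ mΩ := by
  rintro _ ⟨A, hA, rfl⟩
  exact (measurable_pi_lambda _ fun t : ℝ≥0 => (hW.meas (s + t)).sub (hW.meas s)) hA

lemma indep_pst_shf (hW : NBM P W) (s : ℝ≥0) : Indep (Pst W s) (Shf W s) P := by
  have h := hW.pre.indepFun_shift s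
  rw [IndepFun_iff_Indep] at h
  exact h.symm

omit mΩ in
lemma pst_mono {s t : ℝ≥0} (hst : s ≤ t) : Pst W s ≤ Pst W t := by
  let _ := Pst W t
  exact measurable_iff_comap_le.1
    (measurable_pi_lambda _ fun u : Set.Iic s => meas_pst (u.2.trans hst))

lemma shift_nbm (hW : NBM P W) (s : ℝ≥0) : NBM P (fun t ω => W (s + t) ω - W s ω) where
  meas t := (hW.meas _).sub (hW.meas _)
  cont ω := by
    have := hW.cont ω
    fun_prop
  zero ω := by simp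
  pre := hW.pre.shift s

end Pool.Agent.H712P
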