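import Mathlib
import Pool.Agent.H712P.A1

set_option autoImplicit false

open scoped ENNReal NNReal Topology
open MeasureTheory ProbabilityTheory Set Filter

namespace Pool.Agent.H712P

section
variable {Ω : Type*}

lemma meas_rmax (m0 : MeasurableSpace Ω) {V : ℝ≥0 → Ω → ℝ} {h : ℝ≥0}
    (hc : ∀ ω, Continuous (fun t => V t ω)) (hm : ∀ u ≤ h, Measurable[m0] (V u)) :
    Measurable[m0] (fun ω => rmax (fun t => V t ω) h) := by
  let _ := m0
  refine measurable_of_Ioi fun y => ?_
  have : (fun ω => rmax (fun t => V t ω) h) ⁻¹' Ioi y =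
      ⋃ n : ℕ, ⋃ k : ℕ, ⋃ (_ : k ≤ 2 ^ n), {ω | y < V (gp h n k) ω} := by
    ext ω
    simp only [mem_preimage, mem_Ioi, mem_iUnion, Set.mem_ofPred_eq, exists_prop]
    rw [lt_rmax_iff (hc ω)]
    constructor
    · rintro ⟨u, hu, hy⟩
      obtain ⟨n, hn⟩ := (grid_exists (hc ω) hu hy).exists
      exact ⟨n, hn⟩
    · rintro ⟨n, k, hk, hy⟩
      exact ⟨_, gp_le h hk, hy⟩
  rw [this]
  exact MeasurableSet.iUnion fun n => .iUnion fun k => .iUnion fun hk =>
    measurableSet_lt measurable_const (hm _ (gp_le h hk))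

/-- the sum over the first passage index -/
lemma sum_first (w : ℝ≥0 → ℝ) (h : ℝ≥0) (y : ℝ) (n : ℕ) (f : ℕ → ℝ) :
    ((∀ k ≤ 2 ^ n, w (gp h n k) ≤ y) ∧
      (∑ k ∈ Finset.range (2 ^ n + 1), {k : ℕ | (∀ j < k, w (gp h n j) ≤ y) ∧
        y < w (gp h n k)}.indicator f k) = 0) ∨
    ∃ k ≤ 2 ^ n, (∀ j < k, w (gp h n j) ≤ y) ∧ y < w (gp h n k) ∧
      (∑ k ∈ Finset.range (2 ^ n + 1), {k : ℕ | (∀ j < k, w (gp h n j) ≤ y) ∧
        y < w (gp h n k)}.indicator f k) = f k := by
  classical
  by_cases hex : ∃ k, k ≤ 2 ^ n ∧ y < w (gp h n k)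
  · right
    have h1 := Nat.find_spec hex
    have h2 : ∀ j < Nat.find hex, w (gp h n j) ≤ y := by
      intro j hj
      have := Nat.find_min hex hj
      by_contra hcon
      exact this ⟨hj.le.trans h1.1, not_le.1 hcon⟩
    refine ⟨Nat.find hex, h1.1, h2, h1.2, ?_⟩
    rw [Finset.sum_eq_single (Nat.find hex)]
    · rw [Set.indicator_of_mem]
      exact ⟨h2, h1.2⟩
    · intro k hk hne
      rw [Set.indicator_of_notMem]
      rintro ⟨h3, h4⟩
      rcases lt_or_gt_of_ne hne with hlt | hlt
      · exact absurd (h2 k hlt) (not_le.2 h4)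
      · exact absurd (h3 _ hlt) (not_le.2 h1.2)
    · intro hk
      exact absurd (Finset.mem_range.2 (Nat.lt_succ_of_le h1.1)) hk
  · left
    push Not at hex
    refine ⟨hex, Finset.sum_eq_zero fun k hk => ?_⟩
    rw [Set.indicator_of_notMem]
    rintro ⟨-, h4⟩
    exact absurd (hex k (Nat.lt_succ_iff.1 (Finset.mem_range.1 hk))) (not_le.2 h4)

end

variable {Ω : Type*} [mΩ : MeasurableSpace Ω] {P : Measure Ω} {W : ℝ≥0 → Ω → ℝ}

lemma refl_step [IsProbabilityMeasure P] (hW : NBM P W) {t h : ℝ≥0} (hth : t ≤ h) {A : Set Ω}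
    (hA : MeasurableSet[Pst W t] A) (g : ℝ → ℝ) (hg : Measurable g) :
    ∫ ω in A, g (W h ω) ∂P = ∫ ω in A, g (2 * W t ω - W h ω) ∂P := by
  obtain ⟨A', hA', rfl⟩ := hA
  set past : Ω → (Set.Iic t → ℝ) := fun ω u => W u ω with hpast
  have hpm : Measurable past := measurable_pi_lambda _ fun u : Set.Iic t => hW.meas u
  set D : Ω → ℝ := fun ω => W h ω - W t ω with hD
  have hDm : Measurable D := (hW.meas h).sub (hW.meas t)
  have hind : IndepFun past D P := by
    have hme : Measurable (fun f : ℝ≥0 → ℝ => f (h - t)) := measurable_pi_apply (h - t)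
    have h1 := (hW.pre.indepFun_shift t).symm.comp (φ := id)
      (ψ := fun f : ℝ≥0 → ℝ => f (h - t)) measurable_id hme
    have h2 : (fun f : ℝ≥0 → ℝ => f (h - t)) ∘ (fun ω (s : ℝ≥0) => W (t + s) ω - W t ω) = D := by
      funext ω
      simp only [Function.comp, D, add_tsub_cancel_of_le hth]
    rw [h2] at h1
    exact h1
  have hlaw : HasLaw D (gaussianReal 0 (nndist h.1 t.1)) P := hW.pre.hasLaw_sub h t
  have hlaw' : HasLaw (-D) (gaussianReal 0 (nndist h.1 t.1)) P := by
    have := gaussianReal_neg hlaw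
    rwa [neg_zero] at this
  have hmap : P.map (fun ω => (past ω, D ω)) = P.map (fun ω => (past ω, (-D) ω)) := by
    rw [(indepFun_iff_map_prod_eq_prod_map_map hpm.aemeasurable hDm.aemeasurable).1 hind,
      (indepFun_iff_map_prod_eq_prod_map_map hpm.aemeasurable hDm.neg.aemeasurable).1
        (hind.comp measurable_id measurable_neg), hlaw.map_eq, hlaw'.map_eq]
  set Φ : (Set.Iic t → ℝ) × ℝ → ℝ := fun z => (Prod.fst ⁻¹' A').indicator
    (fun z => g (z.1 ⟨t, Set.mem_Iic.2 le_rfl⟩ + z.2)) z with hΦ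
  have hΦm : Measurable Φ := by
    refine Measurable.indicator ?_ (measurable_fst hA')
    refine hg.comp (Measurable.add ?_ measurable_snd)
    exact (measurable_pi_apply (⟨t, Set.mem_Iic.2 le_rfl⟩ : Set.Iic t)).comp measurable_fst
  have e1 : ∫ ω in past ⁻¹' A', g (W h ω) ∂P = ∫ z, Φ z ∂(P.map fun ω => (past ω, D ω)) := by
    rw [integral_map (hpm.prodMk hDm).aemeasurable hΦm.aestronglyMeasurable,
      ← integral_indicator (hpm hA')]
    refine integral_congr_ae (Eventually.of_forall fun ω => ?_)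
    by_cases hω : past ω ∈ A'
    · simp only [Φ]
      rw [indicator_of_mem (by exact hω), indicator_of_mem (by exact hω)]
      simp only [past, D]
      congr 1
      ring
    · simp only [Φ]
      rw [indicator_of_notMem (by exact hω), indicator_of_notMem (by exact hω)]
  have e2 : ∫ ω in past ⁻¹' A', g (2 * W t ω - W h ω) ∂P =
      ∫ z, Φ z ∂(P.map fun ω => (past ω, (-D) ω)) := by
    rw [integral_map (hpm.prodMk hDm.neg).aemeasurable hΦm.aestronglyMeasurable,
      ← integral_indicator (hpm hA')]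
    refine integral_congr_ae (Eventually.of_forall fun ω => ?_)
    by_cases hω : past ω ∈ A'
    · simp only [Φ]
      rw [indicator_of_mem (by exact hω), indicator_of_mem (by exact hω)]
      simp only [past, D, Pi.neg_apply]
      congr 1
      ring
    · simp only [Φ]
      rw [indicator_of_notMem (by exact hω), indicator_of_notMem (by exact hω)]
  rw [e1, e2, hmap]

theorem reflection [IsProbabilityMeasure P] (hW : NBM P W) {h : ℝ≥0} {y : ℝ} (hy : 0 ≤ y)
    (g : BoundedContinuousFunction ℝ ℝ) :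
    ∫ ω in {ω | y < rmax (fun t => W t ω) h}, g (W h ω) ∂P =
      ∫ ω in {ω | y < rmax (fun t => W t ω) h}, g (2 * y - W h ω) ∂P := by
  classical
  set E : Set Ω := {ω | y < rmax (fun t => W t ω) h} with hE
  have hEm : MeasurableSet E :=
    measurableSet_lt measurable_const (meas_rmax mΩ hW.cont fun u _ => hW.meas u)
  set T : ℕ → ℕ → Set Ω := fun n k => {ω | (∀ j < k, W (gp h n j) ω ≤ y) ∧
    y < W (gp h n k) ω} with hT
  have hTP : ∀ n k, MeasurableSet[Pst W (gp h n k)] (T n k) := by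
    intro n k
    have e : T n k = (⋂ j : ℕ, ⋂ (_ : j < k), {ω | W (gp h n j) ω ≤ y}) ∩
        {ω | y < W (gp h n k) ω} := by
      ext ω
      simp [T]
    rw [e]
    let _ := Pst W (gp h n k)
    refine MeasurableSet.inter (.iInter fun j => .iInter fun hj => ?_) ?_
    · exact measurableSet_le (meas_pst (gp_mono h n hj.le)) measurable_const
    · exact measurableSet_lt measurable_const (meas_pst le_rfl)
  have hTm : ∀ n k, MeasurableSet (T n k) := fun n k => pst_le hW _ _ (hTP n k)
  set G1 : ℕ → Ω → ℝ := fun n ω => ∑ k ∈ Finset.range (2 ^ n + 1),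
    (T n k).indicator (fun ω => g (W h ω)) ω with hG1
  set G2 : ℕ → Ω → ℝ := fun n ω => ∑ k ∈ Finset.range (2 ^ n + 1),
    (T n k).indicator (fun ω => g (2 * W (gp h n k) ω - W h ω)) ω with hG2
  have hgm : Measurable (g : ℝ → ℝ) := g.continuous.measurable
  have hm1 : Measurable (fun ω => g (W h ω)) := hgm.comp (hW.meas h)
  have hm2 : ∀ n k, Measurable (fun ω => g (2 * W (gp h n k) ω - W h ω)) := fun n k =>
    hgm.comp (((hW.meas _).const_mul 2).sub (hW.meas h))
  have hi1 : Integrable (fun ω => g (W h ω)) P :=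
    Integrable.of_bound hm1.aestronglyMeasurable ‖g‖ (Eventually.of_forall fun ω => g.norm_coe_le_norm _)
  have hi2 : ∀ n k, Integrable (fun ω => g (2 * W (gp h n k) ω - W h ω)) P := fun n k =>
    Integrable.of_bound (hm2 n k).aestronglyMeasurable ‖g‖
      (Eventually.of_forall fun ω => g.norm_coe_le_norm _)
  have hint : ∀ n, ∫ ω, G1 n ω ∂P = ∫ ω, G2 n ω ∂P := by
    intro n
    simp only [G1, G2]
    rw [integral_finsetSum _ fun k _ => hi1.indicator (hTm n k),
      integral_finsetSum _ fun k _ => (hi2 n k).indicator (hTm n k)]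
    refine Finset.sum_congr rfl fun k hk => ?_
    rw [integral_indicator (hTm n k), integral_indicator (hTm n k)]
    exact refl_step hW (gp_le h (Nat.lt_succ_iff.1 (Finset.mem_range.1 hk))) (hTP n k) g hgm
  -- the sums in terms of the path
  have hs1 : ∀ n ω, G1 n ω = ∑ k ∈ Finset.range (2 ^ n + 1),
      {k : ℕ | (∀ j < k, W (gp h n j) ω ≤ y) ∧ y < W (gp h n k) ω}.indicator
        (fun _ => g (W h ω)) k := by
    intro n ω
    refine Finset.sum_congr rfl fun k _ => ?_
    simp only [Set.indicator_apply, T, Set.mem_ofPred_eq]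
  have hs2 : ∀ n ω, G2 n ω = ∑ k ∈ Finset.range (2 ^ n + 1),
      {k : ℕ | (∀ j < k, W (gp h n j) ω ≤ y) ∧ y < W (gp h n k) ω}.indicator
        (fun k => g (2 * W (gp h n k) ω - W h ω)) k := by
    intro n ω
    refine Finset.sum_congr rfl fun k _ => ?_
    simp only [Set.indicator_apply, T, Set.mem_ofPred_eq]
  have hb1 : ∀ n ω, ‖G1 n ω‖ ≤ ‖g‖ := by
    intro n ω
    rw [hs1]
    rcases sum_first (fun t => W t ω) h y n (fun _ => g (W h ω)) with ⟨-, h2⟩ | ⟨k, -, -, -, h2⟩
    · rw [h2, norm_zero]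
      exact norm_nonneg _
    · rw [h2]
      exact g.norm_coe_le_norm _
  have hb2 : ∀ n ω, ‖G2 n ω‖ ≤ ‖g‖ := by
    intro n ω
    rw [hs2]
    rcases sum_first (fun t => W t ω) h y n (fun k => g (2 * W (gp h n k) ω - W h ω)) with
      ⟨-, h2⟩ | ⟨k, -, -, -, h2⟩
    · rw [h2, norm_zero]
      exact norm_nonneg _
    · rw [h2]
      exact g.norm_coe_le_norm _
  have hG1m : ∀ n, Measurable (G1 n) := fun n =>
    Finset.measurable_fun_sum _ fun k _ => hm1.indicator (hTm n k)
  have hG2m : ∀ n, Measurable (G2 n) := fun n =>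
    Finset.measurable_fun_sum _ fun k _ => (hm2 n k).indicator (hTm n k)
  have hl1 : ∀ ω, Tendsto (fun n => G1 n ω) atTop (𝓝 (E.indicator (fun ω => g (W h ω)) ω)) := by
    intro ω
    by_cases hω : ω ∈ E
    · rw [indicator_of_mem hω]
      obtain ⟨u, hu, hyu⟩ := (lt_rmax_iff (hW.cont ω)).1 hω
      refine tendsto_const_nhds.congr' ?_
      filter_upwards [grid_exists (hW.cont ω) hu hyu] with n hn
      rw [hs1]
      rcases sum_first (fun t => W t ω) h y n (fun _ => g (W h ω)) with ⟨h1, -⟩ | ⟨k, -, -, -, h2⟩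
      · obtain ⟨k, hk, hk2⟩ := hn
        exact absurd (h1 k hk) (not_le.2 hk2)
      · rw [h2]
    · rw [indicator_of_notMem hω]
      refine tendsto_const_nhds.congr fun n => ?_
      rw [hs1]
      rcases sum_first (fun t => W t ω) h y n (fun _ => g (W h ω)) with ⟨-, h2⟩ | ⟨k, h0, -, h1, h2⟩
      · rw [h2]
      · exact absurd ((lt_rmax_iff (hW.cont ω)).2 ⟨_, gp_le h h0, h1⟩) hω
  have hl2 : ∀ ω, Tendsto (fun n => G2 n ω) atTop
      (𝓝 (E.indicator (fun ω => g (2 * y - W h ω)) ω)) := by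
    intro ω
    by_cases hω : ω ∈ E
    · rw [indicator_of_mem hω]
      obtain ⟨u, hu, hyu⟩ := (lt_rmax_iff (hW.cont ω)).1 hω
      rw [Metric.tendsto_atTop']
      intro ε hε
      obtain ⟨δ, hδ, hgδ⟩ := Metric.continuous_iff.1 g.continuous (2 * y - W h ω) ε hε
      have huc : UniformContinuousOn (fun t => W t ω) (Icc 0 h) :=
        isCompact_Icc.uniformContinuousOn_of_continuous (hW.cont ω).continuousOn
      obtain ⟨δ', hδ', hwδ⟩ := Metric.uniformContinuousOn_iff.1 huc (δ / 2) (by positivity)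
      have hme := (tendsto_mesh h).eventually (gt_mem_nhds hδ')
      obtain ⟨N, hN⟩ := (((grid_exists (hW.cont ω) hu hyu).and hme)).exists_forall_of_atTop
      refine ⟨N, fun n hn => ?_⟩
      obtain ⟨hn1, hn2⟩ := hN n hn.le
      rw [hs2]
      rcases sum_first (fun t => W t ω) h y n (fun k => g (2 * W (gp h n k) ω - W h ω)) with
        ⟨h1, -⟩ | ⟨k, hk, hkl, hky, h2⟩
      · obtain ⟨k, hk, hk2⟩ := hn1
        exact absurd (h1 k hk) (not_le.2 hk2)
      · rw [h2]
        apply hgδ
        have hk0 : k ≠ 0 := by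
          rintro rfl
          rw [gp_zero, hW.zero] at hky
          exact absurd hy (not_le.2 hky)
        obtain ⟨j, rfl⟩ := Nat.exists_eq_succ_of_ne_zero hk0
        have h3 := hkl j (Nat.lt_succ_self j)
        have h4 := hwδ (gp h n (j + 1)) ⟨zero_le, gp_le h hk⟩ (gp h n j)
          ⟨zero_le, gp_le h ((Nat.le_succ j).trans hk)⟩ (by
            rw [NNReal.dist_eq, gp_succ]
            push_cast
            rw [add_sub_cancel_left, abs_of_nonneg (by positivity)]
            exact_mod_cast hn2)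
        rw [Real.dist_eq] at h4 ⊢
        have h5 := (abs_lt.1 h4).2
        simp only [Nat.succ_eq_add_one] at hky ⊢
        have e : 2 * W (gp h n (j + 1)) ω - W h ω - (2 * y - W h ω) =
            2 * (W (gp h n (j + 1)) ω - y) := by ring
        rw [e, abs_of_pos (by linarith)]
        linarith
    · rw [indicator_of_notMem hω]
      refine tendsto_const_nhds.congr fun n => ?_
      rw [hs2]
      rcases sum_first (fun t => W t ω) h y n (fun k => g (2 * W (gp h n k) ω - W h ω)) with
        ⟨-, h2⟩ | ⟨k, h0, -, h1, h2⟩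
      · rw [h2]
      · exact absurd ((lt_rmax_iff (hW.cont ω)).2 ⟨_, gp_le h h0, h1⟩) hω
  have t1 := tendsto_integral_of_dominated_convergence (fun _ => ‖g‖)
    (fun n => (hG1m n).aestronglyMeasurable) (integrable_const (μ := P) _)
    (fun n => Eventually.of_forall (hb1 n)) (Eventually.of_forall hl1)
  have t2 := tendsto_integral_of_dominated_convergence (fun _ => ‖g‖)
    (fun n => (hG2m n).aestronglyMeasurable) (integrable_const (μ := P) _)
    (fun n => Eventually.of_forall (hb2 n)) (Eventually.of_forall hl2)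
  rw [← integral_indicator hEm, ← integral_indicator hEm]
  refine tendsto_nhds_unique t1 (t2.congr fun n => (hint n).symm)

end Pool.Agent.H712P
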