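import Mathlib
import Pool.Agent.H712P.A2

set_option autoImplicit false

open scoped ENNReal NNReal Topology
open MeasureTheory ProbabilityTheory Set Filter

namespace Pool.Agent.H712P

/-- `-2` times the derivative of the Gaussian density -/
noncomputable def kap (h : ℝ≥0) (r : ℝ) : ℝ := 2 * r / h * gaussianPDFReal 0 h r

lemma kap_meas (h : ℝ≥0) : Measurable (kap h) := by
  unfold kap
  have := measurable_gaussianPDFReal 0 h
  fun_prop

lemma K1 {h : ℝ≥0} (hh : 0 < h) {a w : ℝ} (haw : 0 ≤ 2 * a - w) :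
    ∫⁻ m in Ioi a, ENNReal.ofReal (kap h (2 * m - w)) =
      ENNReal.ofReal (gaussianPDFReal 0 h (2 * a - w)) := by
  have hh' : (0 : ℝ) < h := by exact_mod_cast hh
  have hd : ∀ m : ℝ, HasDerivAt (fun m => - gaussianPDFReal 0 h (2 * m - w))
      (kap h (2 * m - w)) m := by
    intro m
    unfold kap
    simp only [gaussianPDFReal]
    have h1 : HasDerivAt (fun m : ℝ => -(2 * m - w - 0) ^ 2 / (2 * (h : ℝ)))
        (-(2 * (2 * m - w) * 2) / (2 * h)) m := by
      have h2 : HasDerivAt (fun m : ℝ => 2 * m - w - 0) 2 m := by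
        simpa using ((hasDerivAt_id m).const_mul 2).sub_const w
      have h3 := (h2.pow 2).neg.div_const (2 * (h : ℝ))
      refine h3.congr_deriv ?_
      simp
    have h4 := (h1.exp.const_mul (√(2 * Real.pi * h))⁻¹).neg
    refine h4.congr_deriv ?_
    simp only [sub_zero]
    field_simp
  have hnn : ∀ m ∈ Ioi a, 0 ≤ kap h (2 * m - w) := by
    intro m hm
    have : 0 ≤ 2 * m - w := by
      have := mem_Ioi.1 hm
      linarith
    unfold kap
    have := gaussianPDFReal_nonneg 0 h (2 * m - w)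
    positivity
  have hlim : Tendsto (fun m : ℝ => - gaussianPDFReal 0 h (2 * m - w)) atTop (𝓝 0) := by
    simp only [gaussianPDFReal]
    have h1 : Tendsto (fun m : ℝ => 2 * m - w - 0) atTop atTop := by
      simp only [sub_zero]
      exact tendsto_atTop_add_const_right _ _ (tendsto_id.const_mul_atTop (by norm_num))
    have h2 : Tendsto (fun m : ℝ => (2 * m - w - 0) ^ 2 / (2 * (h : ℝ))) atTop atTop :=
      ((tendsto_pow_atTop (by norm_num : (2 : ℕ) ≠ 0)).comp h1).atTop_div_const (by positivity)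
    have h3 : Tendsto (fun m : ℝ => Real.exp (-(2 * m - w - 0) ^ 2 / (2 * (h : ℝ)))) atTop
        (𝓝 0) := by
      refine (Real.tendsto_exp_neg_atTop_nhds_zero.comp h2).congr fun m => ?_
      simp only [Function.comp]
      congr 1
      ring
    have h4 := (h3.const_mul (√(2 * Real.pi * h))⁻¹).neg
    simpa using h4
  have hi := integrableOn_Ioi_deriv_of_nonneg' (fun m _ => hd m) hnn hlim
  have he := integral_Ioi_of_hasDerivAt_of_nonneg' (fun m _ => hd m) hnn hlim
  rw [← ofReal_integral_eq_lintegral_ofReal hi ((ae_restrict_iff' measurableSet_Ioi).2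
    (Eventually.of_forall hnn)), he]
  congr 1
  ring

variable {Ω : Type*} [mΩ : MeasurableSpace Ω] {P : Measure Ω} {W : ℝ≥0 → Ω → ℝ}

lemma ne_ae (hW : NBM P W) {h : ℝ≥0} (hh : 0 < h) (y : ℝ) : ∀ᵐ ω ∂P, W h ω ≠ y := by
  have h1 : P.map (W h) {y} = 0 := by
    rw [(hW.pre.hasLaw_eval h).map_eq]
    have := nullSingletonClass_gaussianReal (μ := 0) (v := h) hh.ne'
    exact measure_singleton y
  rw [Measure.map_apply (hW.meas h) (measurableSet_singleton y)] at h1
  exact measure_eq_zero_iff_ae_notMem.1 h1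

theorem refl_measure [IsProbabilityMeasure P] (hW : NBM P W) {h : ℝ≥0} (hh : 0 < h) {y : ℝ}
    (hy : 0 ≤ y) {C : Set ℝ} (hC : MeasurableSet C) :
    P {ω | y < rmax (fun t => W t ω) h ∧ W h ω ∈ C} =
      P {ω | y < W h ω ∧ W h ω ∈ C} + P {ω | y ≤ W h ω ∧ 2 * y - W h ω ∈ C} := by
  set E : Set Ω := {ω | y < rmax (fun t => W t ω) h} with hE
  have hEm : MeasurableSet E :=
    measurableSet_lt measurable_const (meas_rmax mΩ hW.cont fun u _ => hW.meas u)
  have hm := hW.meas h
  have hm2 : Measurable (fun ω => 2 * y - W h ω) := hm.const_sub _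
  have key : (P.restrict E).map (W h) = (P.restrict E).map (fun ω => 2 * y - W h ω) := by
    have i1 : IsFiniteMeasure ((P.restrict E).map (W h)) := inferInstance
    have i2 : IsFiniteMeasure ((P.restrict E).map (fun ω => 2 * y - W h ω)) := inferInstance
    refine ext_of_forall_integral_eq_of_IsFiniteMeasure fun g => ?_
    rw [integral_map hm.aemeasurable g.continuous.aestronglyMeasurable,
      integral_map hm2.aemeasurable g.continuous.aestronglyMeasurable]
    exact reflection hW hy g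
  have h1 : {ω | y < rmax (fun t => W t ω) h ∧ W h ω ∈ C} =
      {ω | y < W h ω ∧ W h ω ∈ C} ∪ (W h ⁻¹' (C ∩ Iic y) ∩ E) := by
    ext ω
    simp only [Set.mem_ofPred_eq, mem_union, mem_inter_iff, mem_preimage, mem_Iic, E]
    constructor
    · rintro ⟨h1, h2⟩
      rcases lt_or_ge y (W h ω) with h3 | h3
      · exact Or.inl ⟨h3, h2⟩
      · exact Or.inr ⟨⟨h2, h3⟩, h1⟩
    · rintro (⟨h1, h2⟩ | ⟨⟨h1, h2⟩, h3⟩)
      · exact ⟨h1.trans_le (le_rmax (hW.cont ω) le_rfl), h2⟩
      · exact ⟨h3, h1⟩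
  have h2 : Disjoint {ω | y < W h ω ∧ W h ω ∈ C} (W h ⁻¹' (C ∩ Iic y) ∩ E) := by
    rw [Set.disjoint_left]
    rintro ω ⟨h1, -⟩ ⟨⟨-, h2⟩, -⟩
    exact absurd h1 (not_lt.2 h2)
  rw [h1, measure_union h2 ((hm (hC.inter measurableSet_Iic)).inter hEm)]
  congr 1
  have h3 : P (W h ⁻¹' (C ∩ Iic y) ∩ E) =
      P ((fun ω => 2 * y - W h ω) ⁻¹' (C ∩ Iic y) ∩ E) := by
    have := DFunLike.congr_fun key (C ∩ Iic y)
    rw [Measure.map_apply hm (hC.inter measurableSet_Iic),
      Measure.map_apply hm2 (hC.inter measurableSet_Iic),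
      Measure.restrict_apply (hm (hC.inter measurableSet_Iic)),
      Measure.restrict_apply (hm2 (hC.inter measurableSet_Iic))] at this
    exact this
  rw [h3]
  refine measure_congr ?_
  filter_upwards [ne_ae hW hh y] with ω hω
  rw [eq_iff_iff]
  show ((2 * y - W h ω ∈ C ∧ 2 * y - W h ω ≤ y) ∧ y < rmax (fun t => W t ω) h) ↔
    (y ≤ W h ω ∧ 2 * y - W h ω ∈ C)
  constructor
  · rintro ⟨⟨h1, h2⟩, -⟩
    exact ⟨by linarith, h1⟩
  · rintro ⟨h1, h2⟩
    exact ⟨⟨h2, by linarith⟩, (lt_of_le_of_ne h1 (Ne.symm hω)).trans_le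
      (le_rmax (hW.cont ω) le_rfl)⟩

/-- the joint density of the maximum and the end point -/
noncomputable def den (h : ℝ≥0) (z : ℝ × ℝ) : ℝ≥0∞ :=
  {z : ℝ × ℝ | 0 < z.1 ∧ z.2 < z.1}.indicator (fun z => ENNReal.ofReal (kap h (2 * z.1 - z.2))) z

lemma den_meas (h : ℝ≥0) : Measurable (den h) := by
  unfold den
  refine Measurable.indicator ?_ ?_
  · have := kap_meas h
    fun_prop
  · exact (measurableSet_lt measurable_const measurable_fst).inter
      (measurableSet_lt measurable_snd measurable_fst)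

lemma den_rect {h : ℝ≥0} (hh : 0 < h) {y : ℝ} (hy : 0 ≤ y) {C : Set ℝ} (hC : MeasurableSet C) :
    ((volume : Measure (ℝ × ℝ)).withDensity (den h)) (Ioi y ×ˢ C) =
      ∫⁻ w, C.indicator (fun w => ENNReal.ofReal (gaussianPDFReal 0 h (2 * max y w - w))) w := by
  have hm : Measurable ((Ioi y ×ˢ C).indicator (den h)) :=
    (den_meas h).indicator (measurableSet_Ioi.prod hC)
  rw [withDensity_apply _ (measurableSet_Ioi.prod hC),
    ← lintegral_indicator (measurableSet_Ioi.prod hC), Measure.volume_eq_prod,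
    lintegral_prod_symm _ hm.aemeasurable]
  refine lintegral_congr fun w => ?_
  by_cases hw : w ∈ C
  · rw [indicator_of_mem hw]
    have h1 : ∀ m : ℝ, (Ioi y ×ˢ C).indicator (den h) (m, w) =
        (Ioi (max y w)).indicator (fun m => ENNReal.ofReal (kap h (2 * m - w))) m := by
      intro m
      by_cases hm1 : max y w < m
      · have h2 := max_lt_iff.1 hm1
        rw [indicator_of_mem (s := Ioi (max y w)) hm1,
          indicator_of_mem (show (m, w) ∈ Ioi y ×ˢ C from ⟨h2.1, hw⟩)]
        unfold den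
        rw [indicator_of_mem]
        exact ⟨hy.trans_lt h2.1, h2.2⟩
      · rw [indicator_of_notMem (s := Ioi (max y w)) hm1]
        by_cases hm2 : y < m
        · rw [indicator_of_mem (show (m, w) ∈ Ioi y ×ˢ C from ⟨hm2, hw⟩)]
          unfold den
          rw [indicator_of_notMem]
          rintro ⟨-, h4⟩
          exact hm1 (max_lt hm2 h4)
        · rw [indicator_of_notMem]
          rintro ⟨h4, -⟩
          exact hm2 h4
    simp_rw [h1]
    rw [lintegral_indicator measurableSet_Ioi, K1 hh]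
    have h2 : w ≤ max y w := le_max_right _ _
    have h3 : 0 ≤ max y w := hy.trans (le_max_left _ _)
    linarith
  · rw [indicator_of_notMem hw]
    have h1 : ∀ m : ℝ, (Ioi y ×ˢ C).indicator (den h) (m, w) = 0 := by
      intro m
      rw [indicator_of_notMem]
      rintro ⟨-, h2⟩
      exact hw h2
    simp_rw [h1]
    simp

lemma gauss_rect [IsProbabilityMeasure P] (hW : NBM P W) {h : ℝ≥0} (hh : 0 < h) {y : ℝ}
    {C : Set ℝ} (hC : MeasurableSet C) :
    P {ω | y < W h ω ∧ W h ω ∈ C} + P {ω | y ≤ W h ω ∧ 2 * y - W h ω ∈ C} =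
      ∫⁻ w, C.indicator (fun w => ENNReal.ofReal (gaussianPDFReal 0 h (2 * max y w - w))) w := by
  have hg : ∀ s : Set ℝ, MeasurableSet s → P (W h ⁻¹' s) =
      ∫⁻ x, s.indicator (fun x => ENNReal.ofReal (gaussianPDFReal 0 h x)) x := by
    intro s hs
    rw [← Measure.map_apply (hW.meas h) hs, (hW.pre.hasLaw_eval h).map_eq,
      gaussianReal_of_var_ne_zero _ hh.ne', withDensity_apply _ hs, lintegral_indicator hs]
    rfl
  have hs1 : MeasurableSet {x : ℝ | y < x ∧ x ∈ C} :=
    (measurableSet_lt measurable_const measurable_id).inter hC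
  have hs2 : MeasurableSet {x : ℝ | y ≤ x ∧ 2 * y - x ∈ C} :=
    (measurableSet_le measurable_const measurable_id).inter
      ((measurable_id.const_sub (2 * y)) hC)
  have hpm := measurable_gaussianPDFReal 0 h
  have e1 := hg _ hs1
  have e2 := hg _ hs2
  have e1' : P {ω | y < W h ω ∧ W h ω ∈ C} = ∫⁻ x, {x : ℝ | y < x ∧ x ∈ C}.indicator
      (fun x => ENNReal.ofReal (gaussianPDFReal 0 h x)) x := e1
  have e2' : P {ω | y ≤ W h ω ∧ 2 * y - W h ω ∈ C} =
      ∫⁻ x, {x : ℝ | y ≤ x ∧ 2 * y - x ∈ C}.indicator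
      (fun x => ENNReal.ofReal (gaussianPDFReal 0 h x)) x := e2
  have e3 : ∫⁻ x, {x : ℝ | y ≤ x ∧ 2 * y - x ∈ C}.indicator
      (fun x => ENNReal.ofReal (gaussianPDFReal 0 h x)) x =
      ∫⁻ x, {x : ℝ | y ≤ x ∧ 2 * y - x ∈ C}.indicator
      (fun x => ENNReal.ofReal (gaussianPDFReal 0 h x)) (2 * y - x) :=
    (lintegral_sub_left_eq_self _ (2 * y)).symm
  rw [e1', e2', e3, ← lintegral_add_left ((hpm.ennreal_ofReal).indicator hs1)]
  refine lintegral_congr fun w => ?_
  by_cases hw : w ∈ C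
  · rw [indicator_of_mem hw]
    rcases lt_or_ge y w with h1 | h1
    · rw [indicator_of_mem (show w ∈ {x : ℝ | y < x ∧ x ∈ C} from ⟨h1, hw⟩),
        indicator_of_notMem, add_zero, max_eq_right h1.le]
      · congr 2
        ring
      · rintro ⟨h2, -⟩
        linarith
    · rw [indicator_of_notMem, indicator_of_mem, zero_add, max_eq_left h1]
      · refine ⟨by linarith, ?_⟩
        have : 2 * y - (2 * y - w) = w := by ring
        rw [this]
        exact hw
      · rintro ⟨h2, -⟩
        exact absurd h2 (not_lt.2 h1)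
  · rw [indicator_of_notMem hw, indicator_of_notMem, indicator_of_notMem, zero_add]
    · rintro ⟨-, h2⟩
      have : 2 * y - (2 * y - w) = w := by ring
      rw [this] at h2
      exact hw h2
    · rintro ⟨-, h2⟩
      exact hw h2

/-- **Joint law of the maximum and the end point** -/
theorem law_max [IsProbabilityMeasure P] (hW : NBM P W) {h : ℝ≥0} (hh : 0 < h) :
    P.map (fun ω => (rmax (fun t => W t ω) h, W h ω)) =
      (volume : Measure (ℝ × ℝ)).withDensity (den h) := by
  have hmm : Measurable (fun ω => (rmax (fun t => W t ω) h, W h ω)) :=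
    (meas_rmax mΩ hW.cont fun u _ => hW.meas u).prodMk (hW.meas h)
  have hpos : ∀ ω, 0 ≤ rmax (fun t => W t ω) h := by
    intro ω
    rw [← hW.zero ω]
    exact le_rmax (hW.cont ω) zero_le
  -- rectangles with `y ≥ 0`
  have hrect : ∀ y : ℝ, 0 ≤ y → ∀ C : Set ℝ, MeasurableSet C →
      P.map (fun ω => (rmax (fun t => W t ω) h, W h ω)) (Ioi y ×ˢ C) =
      ((volume : Measure (ℝ × ℝ)).withDensity (den h)) (Ioi y ×ˢ C) := by
    intro y hy C hC
    rw [Measure.map_apply hmm (measurableSet_Ioi.prod hC), den_rect hh hy hC,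
      ← gauss_rect hW hh hC, ← refl_measure hW hh hy hC]
    rfl
  -- the second measure lives on `m > 0`
  have hnu : ∀ y : ℝ, y < 0 → ∀ C : Set ℝ, MeasurableSet C →
      ((volume : Measure (ℝ × ℝ)).withDensity (den h)) (Ioi y ×ˢ C) =
      ((volume : Measure (ℝ × ℝ)).withDensity (den h)) (Ioi 0 ×ˢ C) := by
    intro y hy C hC
    rw [withDensity_apply _ (measurableSet_Ioi.prod hC),
      withDensity_apply _ (measurableSet_Ioi.prod hC),
      ← lintegral_indicator (measurableSet_Ioi.prod hC),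
      ← lintegral_indicator (measurableSet_Ioi.prod hC)]
    refine lintegral_congr fun z => ?_
    by_cases hz : 0 < z.1
    · by_cases hz2 : z.2 ∈ C
      · rw [indicator_of_mem (show z ∈ Ioi y ×ˢ C from ⟨hy.trans hz, hz2⟩),
          indicator_of_mem (show z ∈ Ioi (0:ℝ) ×ˢ C from ⟨hz, hz2⟩)]
      · rw [indicator_of_notMem (fun h => hz2 h.2), indicator_of_notMem (fun h => hz2 h.2)]
    · rw [indicator_of_notMem (s := Ioi (0:ℝ) ×ˢ C) (fun h => hz h.1)]
      have : den h z = 0 := by
        unfold den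
        rw [indicator_of_notMem (fun h => hz h.1)]
      by_cases hz2 : z ∈ Ioi y ×ˢ C
      · rw [indicator_of_mem hz2, this]
      · rw [indicator_of_notMem hz2]
  -- the maximum is positive almost surely
  have hmu : ∀ y : ℝ, y < 0 → ∀ C : Set ℝ, MeasurableSet C →
      P.map (fun ω => (rmax (fun t => W t ω) h, W h ω)) (Ioi y ×ˢ C) =
      P.map (fun ω => (rmax (fun t => W t ω) h, W h ω)) (Ioi 0 ×ˢ C) := by
    intro y hy C hC
    have h1 : ∀ᵐ ω ∂P, 0 < rmax (fun t => W t ω) h := by
      have e := refl_measure hW hh le_rfl (C := univ) MeasurableSet.univ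
      simp only [mem_univ, and_true] at e
      have e2 : P {ω | 0 < W h ω} + P {ω | 0 ≤ W h ω} = 1 := by
        have e3 : P {ω | 0 < W h ω} = P {ω | W h ω < 0} := by
          have l1 := hW.pre.hasLaw_eval h
          have l2 := gaussianReal_neg l1
          rw [neg_zero] at l2
          have : P.map (W h) (Ioi 0) = P.map (-(W h)) (Ioi 0) := by
            rw [l1.map_eq, l2.map_eq]
          rw [Measure.map_apply (hW.meas h) measurableSet_Ioi,
            Measure.map_apply (hW.meas h).neg measurableSet_Ioi] at this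
          refine this.trans ?_
          congr 1
          ext ω
          simp
        rw [e3]
        have hm0 : MeasurableSet {ω | 0 ≤ W h ω} := measurableSet_le measurable_const (hW.meas h)
        have e4 : {ω | W h ω < 0} = {ω | 0 ≤ W h ω}ᶜ := by
          ext ω
          simp
        rw [e4, add_comm]
        exact prob_add_prob_compl hm0
      rw [e2] at e
      exact (prob_compl_eq_zero_iff (measurableSet_lt measurable_const
        (meas_rmax mΩ hW.cont fun u _ => hW.meas u))).2 e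
    rw [Measure.map_apply hmm (measurableSet_Ioi.prod hC),
      Measure.map_apply hmm (measurableSet_Ioi.prod hC)]
    refine measure_congr ?_
    filter_upwards [h1] with ω hω
    rw [eq_iff_iff]
    show (y < rmax (fun t => W t ω) h ∧ W h ω ∈ C) ↔ (0 < rmax (fun t => W t ω) h ∧ W h ω ∈ C)
    exact ⟨fun h => ⟨hω, h.2⟩, fun h => ⟨hy.trans hω, h.2⟩⟩
  have hall : ∀ y : ℝ, ∀ C : Set ℝ, MeasurableSet C →
      P.map (fun ω => (rmax (fun t => W t ω) h, W h ω)) (Ioi y ×ˢ C) =
      ((volume : Measure (ℝ × ℝ)).withDensity (den h)) (Ioi y ×ˢ C) := by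
    intro y C hC
    rcases lt_or_ge y 0 with hy | hy
    · rw [hnu y hy C hC, hmu y hy C hC, hrect 0 le_rfl C hC]
    · exact hrect y hy C hC
  have hprob : IsProbabilityMeasure (P.map (fun ω => (rmax (fun t => W t ω) h, W h ω))) :=
    Measure.isProbabilityMeasure_map hmm.aemeasurable
  have huniv : P.map (fun ω => (rmax (fun t => W t ω) h, W h ω)) univ =
      ((volume : Measure (ℝ × ℝ)).withDensity (den h)) univ := by
    have h1 : (univ : Set (ℝ × ℝ)) = ⋃ n : ℕ, Ioi (-(n : ℝ)) ×ˢ univ := by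
      ext z
      simp only [mem_univ, mem_iUnion, mem_prod, mem_Ioi, and_true, true_iff]
      obtain ⟨n, hn⟩ := exists_nat_gt (-z.1)
      exact ⟨n, by linarith⟩
    have h2 : Monotone fun n : ℕ => (Ioi (-(n : ℝ)) ×ˢ univ : Set (ℝ × ℝ)) := by
      intro a b hab z hz
      refine ⟨?_, trivial⟩
      have : (a : ℝ) ≤ b := by exact_mod_cast hab
      have h3 := mem_Ioi.1 hz.1
      exact mem_Ioi.2 (by linarith)
    rw [h1, h2.measure_iUnion, h2.measure_iUnion]
    exact iSup_congr fun n => hall _ _ MeasurableSet.univ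
  refine ext_of_generate_finite (image2 (· ×ˢ ·) (range Ioi) {s : Set ℝ | MeasurableSet s})
    ?_ ?_ ?_ huniv
  · rw [← generateFrom_prod_eq, ← borel_eq_generateFrom_Ioi, MeasurableSpace.generateFrom_measurableSet]
    · refine ⟨fun n : ℕ => Ioi (-(n : ℝ)), fun n => ⟨_, rfl⟩, ?_⟩
      rw [eq_univ_iff_forall]
      intro x
      obtain ⟨n, hn⟩ := exists_nat_gt (-x)
      exact mem_iUnion.2 ⟨n, mem_Ioi.2 (by linarith)⟩
    · exact ⟨fun _ => univ, fun _ => (MeasurableSet.univ : MeasurableSet (univ : Set ℝ)),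
        iUnion_const _⟩
  · exact isPiSystem_Ioi.prod MeasurableSpace.isPiSystem_measurableSet
  · rintro _ ⟨_, ⟨y, rfl⟩, C, hC, rfl⟩
    exact hall y C hC

end Pool.Agent.H712P
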