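import Mathlib
import Pool.Agent.H712P.A3

set_option autoImplicit false

open scoped ENNReal NNReal Topology
open MeasureTheory ProbabilityTheory Set Filter

namespace Pool.Agent.H712P

lemma swap12 (f : ℝ → ℝ → ℝ → ℝ≥0∞) (hf : Measurable (fun p : ℝ × ℝ × ℝ => f p.1 p.2.1 p.2.2)) :
    ∫⁻ x, ∫⁻ y, ∫⁻ z, f x y z = ∫⁻ y, ∫⁻ x, ∫⁻ z, f x y z := by
  refine lintegral_lintegral_swap (f := fun x y => ∫⁻ z, f x y z) ?_
  have h1 : Measurable (fun p : (ℝ × ℝ) × ℝ => f p.1.1 p.1.2 p.2) :=
    hf.comp (f := fun p : (ℝ × ℝ) × ℝ => (p.1.1, p.1.2, p.2)) (by fun_prop)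
  exact (Measurable.lintegral_prod_right' h1).aemeasurable

lemma swap23 (f : ℝ → ℝ → ℝ → ℝ≥0∞) (hf : Measurable (fun p : ℝ × ℝ × ℝ => f p.1 p.2.1 p.2.2)) :
    ∫⁻ x, ∫⁻ y, ∫⁻ z, f x y z = ∫⁻ x, ∫⁻ z, ∫⁻ y, f x y z := by
  refine lintegral_congr fun x => lintegral_lintegral_swap ?_
  exact (hf.comp (f := fun p : ℝ × ℝ => (x, p.1, p.2)) (by fun_prop)).aemeasurable

lemma ms3 {α : Type*} [MeasurableSpace α] {a b c d e f : α → ℝ} (ha : Measurable a)
    (hb : Measurable b) (hc : Measurable c) (hd : Measurable d) (he : Measurable e)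
    (hf : Measurable f) : MeasurableSet {x | a x < b x ∧ c x < d x ∧ e x < f x} :=
  (measurableSet_lt ha hb).inter ((measurableSet_lt hc hd).inter (measurableSet_lt he hf))

lemma ms3' {α : Type*} [MeasurableSpace α] {a b c d e f : α → ℝ} (ha : Measurable a)
    (hb : Measurable b) (hc : Measurable c) (hd : Measurable d) (he : Measurable e)
    (hf : Measurable f) : MeasurableSet {x | a x < b x ∧ c x < d x ∧ e x ≤ f x} :=
  (measurableSet_lt ha hb).inter ((measurableSet_lt hc hd).inter (measurableSet_le he hf))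

/-- one step of the pair (increment of `X`, queue length) -/
noncomputable def th (q : ℝ) (z : ℝ × ℝ) : ℝ × ℝ := (2 * max (z.1 - q) 0 - z.2, max q z.1 - z.2)

lemma th_meas : Measurable (fun p : ℝ × ℝ × ℝ => th p.1 p.2) := by
  unfold th
  fun_prop

theorem one_step {h : ℝ≥0} (hh : 0 < h) :
    (((volume : Measure ℝ).restrict (Ioi 0)).prod
      ((volume : Measure (ℝ × ℝ)).withDensity (den h))).map (fun p => th p.1 p.2) =
      (gaussianReal 0 h).prod ((volume : Measure ℝ).restrict (Ioi 0)) := by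
  have hkm := (kap_meas h).ennreal_ofReal
  have hdm := den_meas h
  refine Measure.ext_of_lintegral _ fun F hF => ?_
  have hsf : SFinite ((volume : Measure (ℝ × ℝ)).withDensity (den h)) := inferInstance
  have hFt : Measurable (fun p : ℝ × ℝ × ℝ => F (th p.1 p.2)) := hF.comp th_meas
  rw [lintegral_map hF th_meas, lintegral_prod _ hFt.aemeasurable,
    lintegral_prod _ hF.aemeasurable]
  -- the two parts
  set T1 : ℝ → ℝ → ℝ → ℝ≥0∞ := fun q m r => if 0 < m ∧ m < r ∧ m ≤ q then
    ENNReal.ofReal (kap h r) * F (r - 2 * m, q + (r - 2 * m)) else 0 with hT1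
  set T2 : ℝ → ℝ → ℝ → ℝ≥0∞ := fun q m r => if 0 < q ∧ q < m ∧ m < r then
    ENNReal.ofReal (kap h r) * F (r - 2 * q, r - m) else 0 with hT2
  have hT1m : Measurable (fun p : ℝ × ℝ × ℝ => T1 p.1 p.2.1 p.2.2) := by
    refine Measurable.ite ?_ ?_ measurable_const
    · refine ms3' ?_ ?_ ?_ ?_ ?_ ?_ <;> fun_prop
    · exact (hkm.comp (by fun_prop)).mul (hF.comp (by fun_prop))
  have hT2m : Measurable (fun p : ℝ × ℝ × ℝ => T2 p.1 p.2.1 p.2.2) := by
    refine Measurable.ite ?_ ?_ measurable_const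
    · refine ms3 ?_ ?_ ?_ ?_ ?_ ?_ <;> fun_prop
    · exact (hkm.comp (by fun_prop)).mul (hF.comp (by fun_prop))
  have e0 : ∫⁻ q in Ioi (0:ℝ), ∫⁻ z, F (th q z) ∂((volume : Measure (ℝ × ℝ)).withDensity (den h)) =
      (∫⁻ q, ∫⁻ m, ∫⁻ r, T1 q m r) + ∫⁻ q, ∫⁻ m, ∫⁻ r, T2 q m r := by
    rw [← lintegral_add_left]
    swap
    · have h1 : Measurable (fun p : (ℝ × ℝ) × ℝ => T1 p.1.1 p.1.2 p.2) :=
        hT1m.comp (f := fun p : (ℝ × ℝ) × ℝ => (p.1.1, p.1.2, p.2)) (by fun_prop)
      exact (h1.lintegral_prod_right').lintegral_prod_right'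
    rw [← lintegral_indicator measurableSet_Ioi]
    refine lintegral_congr fun q => ?_
    rw [← lintegral_add_left]
    swap
    · have h1 : Measurable (fun p : ℝ × ℝ => T1 q p.1 p.2) :=
        hT1m.comp (f := fun p : ℝ × ℝ => (q, p.1, p.2)) (by fun_prop)
      exact h1.lintegral_prod_right'
    have e1 : ∀ m, (∫⁻ r, T1 q m r) + ∫⁻ r, T2 q m r = ∫⁻ r, (T1 q m r + T2 q m r) := by
      intro m
      rw [lintegral_add_left]
      exact hT1m.comp (f := fun r : ℝ => (q, m, r)) (by fun_prop)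
    simp_rw [e1]
    by_cases hq : 0 < q
    · have hFq : Measurable (fun z : ℝ × ℝ => F (th q z)) :=
        hFt.comp (f := fun z : ℝ × ℝ => (q, z)) (by fun_prop)
      rw [indicator_of_mem (mem_Ioi.2 hq), lintegral_withDensity_eq_lintegral_mul _ hdm hFq,
        Measure.volume_eq_prod, lintegral_prod _ (hdm.mul hFq).aemeasurable]
      refine lintegral_congr fun m => ?_
      rw [← lintegral_sub_left_eq_self _ (2 * m)]
      refine lintegral_congr fun r => ?_
      simp only [Pi.mul_apply, T1, T2]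
      by_cases hm : 0 < m ∧ m < r
      · have e2 : den h (m, 2 * m - r) = ENNReal.ofReal (kap h r) := by
          unfold den
          rw [indicator_of_mem]
          · simp only
            congr 2
            ring
          · exact ⟨hm.1, by show 2 * m - r < m; linarith [hm.2]⟩
        rw [e2]
        rcases le_or_gt m q with h1 | h1
        · rw [if_pos ⟨hm.1, hm.2, h1⟩, if_neg (fun h => absurd h.2.1 (not_lt.2 h1)), add_zero]
          congr 2
          unfold th
          simp only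
          rw [max_eq_right (by linarith), max_eq_left h1]
          ext
          · simp only; ring
          · simp only; ring
        · rw [if_neg (fun h => absurd h.2.2 (not_le.2 h1)), if_pos ⟨hq, h1, hm.2⟩, zero_add]
          congr 2
          unfold th
          simp only
          rw [max_eq_left (by linarith), max_eq_right h1.le]
          ext
          · simp only; ring
          · simp only; ring
      · have e2 : den h (m, 2 * m - r) = 0 := by
          unfold den
          rw [indicator_of_notMem]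
          rintro ⟨h1, h2⟩
          have h2' : 2 * m - r < m := h2
          exact hm ⟨h1, by linarith⟩
        rw [e2, zero_mul, if_neg (fun h => hm ⟨h.1, h.2.1⟩),
          if_neg (fun h => hm ⟨h.1.trans h.2.1, h.2.2⟩), add_zero]
    · rw [indicator_of_notMem (fun h => hq (mem_Ioi.1 h))]
      symm
      rw [lintegral_eq_zero_iff']
      swap
      · have h1 : Measurable (fun p : ℝ × ℝ => T1 q p.1 p.2 + T2 q p.1 p.2) :=
          (hT1m.comp (f := fun p : ℝ × ℝ => (q, p.1, p.2)) (by fun_prop)).add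
            (hT2m.comp (f := fun p : ℝ × ℝ => (q, p.1, p.2)) (by fun_prop))
        exact h1.lintegral_prod_right'.aemeasurable
      refine Eventually.of_forall fun m => ?_
      have : ∀ r, T1 q m r + T2 q m r = 0 := by
        intro r
        simp only [T1, T2]
        rw [if_neg (fun h => hq (h.1.trans_le h.2.2)), if_neg (fun h => hq h.1), add_zero]
      simp only [this, lintegral_zero, Pi.zero_apply]
  rw [e0]
  -- first part
  have eA : ∫⁻ q, ∫⁻ m, ∫⁻ r, T1 q m r = ∫⁻ m, ∫⁻ r, ∫⁻ y, (if 0 < m ∧ m < r ∧ r - m ≤ y then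
      ENNReal.ofReal (kap h r) * F (r - 2 * m, y) else 0) := by
    rw [swap12 T1 hT1m]
    refine lintegral_congr fun m => ?_
    rw [lintegral_lintegral_swap (f := fun q r => T1 q m r)
      (hT1m.comp (f := fun p : ℝ × ℝ => (p.1, m, p.2)) (by fun_prop)).aemeasurable]
    refine lintegral_congr fun r => ?_
    rw [← lintegral_sub_right_eq_self _ (r - 2 * m)]
    refine lintegral_congr fun y => ?_
    simp only [T1]
    have : y - (r - 2 * m) + (r - 2 * m) = y := by ring
    rw [this]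
    congr 1
    rw [eq_iff_iff]
    constructor
    · rintro ⟨h1, h2, h3⟩
      exact ⟨h1, h2, by linarith⟩
    · rintro ⟨h1, h2, h3⟩
      exact ⟨h1, h2, by linarith⟩
  have eB : ∫⁻ q, ∫⁻ m, ∫⁻ r, T2 q m r = ∫⁻ m, ∫⁻ r, ∫⁻ y, (if 0 < m ∧ m < r - y ∧ 0 < y then
      ENNReal.ofReal (kap h r) * F (r - 2 * m, y) else 0) := by
    rw [swap23 T2 hT2m]
    refine lintegral_congr fun q => lintegral_congr fun r => ?_
    rw [← lintegral_sub_left_eq_self _ r]
    refine lintegral_congr fun y => ?_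
    simp only [T2]
    have : r - (r - y) = y := by ring
    rw [this]
    congr 1
    rw [eq_iff_iff]
    constructor
    · rintro ⟨h1, h2, h3⟩
      exact ⟨h1, h2, by linarith⟩
    · rintro ⟨h1, h2, h3⟩
      exact ⟨h1, h2, by linarith⟩
  rw [eA, eB]
  set U : ℝ → ℝ → ℝ → ℝ≥0∞ := fun m r y => if 0 < m ∧ m < r ∧ 0 < y then
      ENNReal.ofReal (kap h r) * F (r - 2 * m, y) else 0 with hU
  have hUm : Measurable (fun p : ℝ × ℝ × ℝ => U p.1 p.2.1 p.2.2) := by
    refine Measurable.ite ?_ ?_ measurable_const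
    · refine ms3 ?_ ?_ ?_ ?_ ?_ ?_ <;> fun_prop
    · exact (hkm.comp (by fun_prop)).mul (hF.comp (by fun_prop))
  have eC : (∫⁻ m, ∫⁻ r, ∫⁻ y, (if 0 < m ∧ m < r ∧ r - m ≤ y then
      ENNReal.ofReal (kap h r) * F (r - 2 * m, y) else 0)) +
      (∫⁻ m, ∫⁻ r, ∫⁻ y, (if 0 < m ∧ m < r - y ∧ 0 < y then
      ENNReal.ofReal (kap h r) * F (r - 2 * m, y) else 0)) = ∫⁻ m, ∫⁻ r, ∫⁻ y, U m r y := by
    have hAm : Measurable (fun p : ℝ × ℝ × ℝ => (if 0 < p.1 ∧ p.1 < p.2.1 ∧ p.2.1 - p.1 ≤ p.2.2 then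
      ENNReal.ofReal (kap h p.2.1) * F (p.2.1 - 2 * p.1, p.2.2) else 0 : ℝ≥0∞)) := by
      refine Measurable.ite ?_ ?_ measurable_const
      · refine ms3' ?_ ?_ ?_ ?_ ?_ ?_ <;> fun_prop
      · exact (hkm.comp (by fun_prop)).mul (hF.comp (by fun_prop))
    rw [← lintegral_add_left]
    swap
    · have h1 := hAm.comp (f := fun p : (ℝ × ℝ) × ℝ => (p.1.1, p.1.2, p.2)) (by fun_prop)
      exact (h1.lintegral_prod_right').lintegral_prod_right'
    refine lintegral_congr fun m => ?_
    rw [← lintegral_add_left]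
    swap
    · have h1 := hAm.comp (f := fun p : ℝ × ℝ => (m, p.1, p.2)) (by fun_prop)
      exact h1.lintegral_prod_right'
    refine lintegral_congr fun r => ?_
    rw [← lintegral_add_left]
    swap
    · exact hAm.comp (f := fun y : ℝ => (m, r, y)) (by fun_prop)
    refine lintegral_congr fun y => ?_
    simp only [U]
    by_cases h1 : 0 < m ∧ m < r ∧ r - m ≤ y
    · rw [if_pos h1, if_neg (fun h => by linarith [h.2.1, h1.2.2]), add_zero,
        if_pos ⟨h1.1, h1.2.1, by linarith [h1.2.1, h1.2.2]⟩]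
    · rw [if_neg h1, zero_add]
      by_cases h2 : 0 < m ∧ m < r - y ∧ 0 < y
      · rw [if_pos h2, if_pos ⟨h2.1, by linarith [h2.2.1, h2.2.2], h2.2.2⟩]
      · rw [if_neg h2, if_neg]
        rintro ⟨h3, h4, h5⟩
        rcases le_or_gt (r - m) y with h6 | h6
        · exact h1 ⟨h3, h4, h6⟩
        · exact h2 ⟨h3, by linarith, h5⟩
  rw [eC]
  -- substitution `r = x + 2 m`
  set V : ℝ → ℝ → ℝ → ℝ≥0∞ := fun m x y => if 0 < m ∧ -x < m ∧ 0 < y then
      ENNReal.ofReal (kap h (2 * m + x)) * F (x, y) else 0 with hV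
  have hVm : Measurable (fun p : ℝ × ℝ × ℝ => V p.1 p.2.1 p.2.2) := by
    refine Measurable.ite ?_ ?_ measurable_const
    · refine ms3 ?_ ?_ ?_ ?_ ?_ ?_ <;> fun_prop
    · exact (hkm.comp (by fun_prop)).mul (hF.comp (by fun_prop))
  have eD : ∫⁻ m, ∫⁻ r, ∫⁻ y, U m r y = ∫⁻ m, ∫⁻ x, ∫⁻ y, V m x y := by
    refine lintegral_congr fun m => ?_
    rw [← lintegral_add_right_eq_self _ (2 * m)]
    refine lintegral_congr fun x => lintegral_congr fun y => ?_
    simp only [U, V]
    have h1 : x + 2 * m - 2 * m = x := by ring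
    have h2 : x + 2 * m = 2 * m + x := by ring
    rw [h1, h2]
    congr 1
    rw [eq_iff_iff]
    constructor
    · rintro ⟨h1, h2, h3⟩
      exact ⟨h1, by linarith, h3⟩
    · rintro ⟨h1, h2, h3⟩
      exact ⟨h1, by linarith, h3⟩
  rw [eD, swap12 V hVm]
  have eE : ∀ x, ∫⁻ m, ∫⁻ y, V m x y = ENNReal.ofReal (gaussianPDFReal 0 h x) *
      ∫⁻ y in Ioi (0:ℝ), F (x, y) := by
    intro x
    have h1 : ∀ m, ∫⁻ y, V m x y = (Ioi (max 0 (-x))).indicator
        (fun m => ENNReal.ofReal (kap h (2 * m - (-x)))) m * ∫⁻ y in Ioi (0:ℝ), F (x, y) := by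
      intro m
      rw [← lintegral_indicator measurableSet_Ioi, ← lintegral_const_mul]
      swap
      · exact (hF.comp (f := fun y : ℝ => (x, y)) (by fun_prop)).indicator measurableSet_Ioi
      refine lintegral_congr fun y => ?_
      simp only [V]
      by_cases h2 : max 0 (-x) < m
      · have h3 := max_lt_iff.1 h2
        rw [indicator_of_mem (mem_Ioi.2 h2)]
        by_cases h4 : 0 < y
        · rw [if_pos ⟨h3.1, h3.2, h4⟩, indicator_of_mem (mem_Ioi.2 h4), sub_neg_eq_add]
        · rw [if_neg (fun h => h4 h.2.2), indicator_of_notMem (fun h => h4 (mem_Ioi.1 h)),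
            mul_zero]
      · rw [indicator_of_notMem (fun h => h2 (mem_Ioi.1 h)), zero_mul, if_neg]
        rintro ⟨h3, h4, -⟩
        exact h2 (max_lt h3 h4)
    simp_rw [h1]
    have hkm' : Measurable (fun m => ENNReal.ofReal (kap h (2 * m - (-x)))) :=
      hkm.comp (f := fun m : ℝ => 2 * m - (-x)) (by fun_prop)
    rw [lintegral_mul_const _ (hkm'.indicator measurableSet_Ioi),
      lintegral_indicator measurableSet_Ioi, K1 hh]
    · congr 2
      rcases le_total 0 (-x) with h2 | h2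
      · rw [max_eq_right h2]
        simp only [gaussianPDFReal]
        congr 3
        ring
      · rw [max_eq_left h2]
        congr 1
        ring
    · have h2 : -x ≤ max 0 (-x) := le_max_right _ _
      have h3 : 0 ≤ max 0 (-x) := le_max_left _ _
      linarith
  simp_rw [eE]
  rw [gaussianReal_of_var_ne_zero _ hh.ne', lintegral_withDensity_eq_lintegral_mul _
    (measurable_gaussianPDF 0 h) (Measurable.lintegral_prod_right' hF)]
  rfl

end Pool.Agent.H712P
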