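import Mathlib
import Pool.Agent.H712P.A4

set_option autoImplicit false

open scoped ENNReal NNReal Topology
open MeasureTheory ProbabilityTheory Set Filter

namespace Pool.Agent.H712P

/-! ## path functionals -/

/-- `S_t = q ∨ max_{u ≤ t} w_u` -/
noncomputable def SS (q : ℝ) (w : ℝ≥0 → ℝ) (t : ℝ≥0) : ℝ := max q (rmax w t)

/-- `X_t = 2 (S_t - S_0) - w_t` -/
noncomputable def XX (q : ℝ) (w : ℝ≥0 → ℝ) (t : ℝ≥0) : ℝ := 2 * (SS q w t - SS q w 0) - w t

/-- `Q_t = S_t - w_t` -/
noncomputable def QQ (q : ℝ) (w : ℝ≥0 → ℝ) (t : ℝ≥0) : ℝ := SS q w t - w t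

lemma rmax_zero (w : ℝ≥0 → ℝ) : rmax w 0 = w 0 := by
  unfold rmax
  simp

lemma rmax_add {w : ℝ≥0 → ℝ} (hw : Continuous w) (s h : ℝ≥0) :
    rmax w (s + h) = max (rmax w s) (w s + rmax (fun u => w (s + u) - w s) h) := by
  have hw' : Continuous (fun u => w (s + u) - w s) := by fun_prop
  apply le_antisymm
  · rw [rmax_le_iff hw]
    intro u hu
    rcases le_total u s with h1 | h1
    · exact (le_rmax hw h1).trans (le_max_left _ _)
    · have h2 := le_rmax hw' (u := u - s) (h := h) (by
        rw [tsub_le_iff_left]; exact hu)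
      simp only [add_tsub_cancel_of_le h1] at h2
      refine le_trans ?_ (le_max_right _ _)
      linarith
  · apply max_le
    · rw [rmax_le_iff hw]
      intro u hu
      exact le_rmax hw (hu.trans le_self_add)
    · have : rmax (fun u => w (s + u) - w s) h ≤ rmax w (s + h) - w s := by
        rw [rmax_le_iff hw']
        intro u hu
        have := le_rmax hw (u := s + u) (h := s + h) (by gcongr)
        linarith
      linarith

lemma step_th {w : ℝ≥0 → ℝ} (hw : Continuous w) (q : ℝ) (s h : ℝ≥0) :
    (XX q w (s + h) - XX q w s, QQ q w (s + h)) =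
      th (QQ q w s) (rmax (fun u => w (s + u) - w s) h, w (s + h) - w s) := by
  unfold XX QQ SS th
  simp only
  rw [rmax_add hw]
  set m := rmax (fun u => w (s + u) - w s) h
  set a := rmax w s
  rcases le_total (w s + m) (max q a) with h1 | h1
  · have e1 : max q (max a (w s + m)) = max q a := by
      rw [← max_assoc, max_eq_left h1]
    have e2 : max (m - (max q a - w s)) 0 = 0 := max_eq_right (by linarith)
    have e3 : max (max q a - w s) m = max q a - w s := max_eq_left (by linarith)
    rw [e1, e2, e3]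
    ext
    · simp only; ring
    · simp only; ring
  · have e1 : max q (max a (w s + m)) = w s + m := by
      rw [← max_assoc, max_eq_right h1]
    have e2 : max (m - (max q a - w s)) 0 = m - (max q a - w s) := max_eq_left (by linarith)
    have e3 : max (max q a - w s) m = m := max_eq_right (by linarith)
    rw [e1, e2, e3]
    ext
    · simp only; ring
    · simp only; ring

lemma SS_mono {w : ℝ≥0 → ℝ} (hw : Continuous w) (q : ℝ) : Monotone (SS q w) := by
  intro s t hst
  unfold SS
  refine max_le_max le_rfl ?_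
  rw [rmax_le_iff hw]
  intro u hu
  exact le_rmax hw (hu.trans hst)

lemma rmax_cont {w : ℝ≥0 → ℝ} (hw : Continuous w) : Continuous (rmax w) := by
  rw [Metric.continuous_iff]
  intro t ε hε
  have huc : UniformContinuousOn w (Icc 0 (t + 1)) :=
    isCompact_Icc.uniformContinuousOn_of_continuous hw.continuousOn
  obtain ⟨δ, hδ, huc⟩ := Metric.uniformContinuousOn_iff.1 huc (ε / 2) (by positivity)
  -- one sided estimate
  have key : ∀ a b : ℝ≥0, a ≤ b → b ≤ t + 1 → dist a b < δ → rmax w b - rmax w a ≤ ε / 2 := by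
    intro a b hab hb hd
    obtain ⟨u, hu, he⟩ := exists_rmax hw b
    rw [← he]
    rcases le_total u a with h1 | h1
    · have := le_rmax hw h1
      linarith
    · have h2 := huc u ⟨zero_le, hu.trans hb⟩ a ⟨zero_le, hab.trans hb⟩ (by
        rw [NNReal.dist_eq] at hd ⊢
        rw [abs_sub_comm] at hd
        rw [abs_of_nonneg (sub_nonneg.2 (by exact_mod_cast h1))]
        rw [abs_of_nonneg (sub_nonneg.2 (by exact_mod_cast hab))] at hd
        have : (u : ℝ) ≤ b := by exact_mod_cast hu
        linarith)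
      rw [Real.dist_eq] at h2
      have h3 := (abs_lt.1 h2).2
      have h4 := le_rmax hw (le_refl a)
      linarith
  have hmono : Monotone (rmax w) := by
    intro s t hst
    rw [rmax_le_iff hw]
    intro u hu
    exact le_rmax hw (hu.trans hst)
  refine ⟨min δ 1, by positivity, fun b hb => ?_⟩
  have hb1 := lt_min_iff.1 hb
  have hbt : b ≤ t + 1 := by
    have h2 := hb1.2
    rw [NNReal.dist_eq] at h2
    have h3 := (abs_lt.1 h2).2
    have : (b : ℝ) ≤ t + 1 := by linarith
    exact_mod_cast this
  rw [Real.dist_eq]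
  rcases le_total b t with h1 | h1
  · have h2 := key b t h1 le_self_add hb1.1
    have h3 := hmono h1
    rw [abs_of_nonpos (by linarith)]
    linarith
  · have h2 := key t b h1 hbt (by rw [dist_comm]; exact hb1.1)
    have h3 := hmono h1
    rw [abs_of_nonneg (by linarith)]
    linarith

lemma SS_cont {w : ℝ≥0 → ℝ} (hw : Continuous w) (q : ℝ) : Continuous (SS q w) :=
  continuous_const.max (rmax_cont hw)

lemma XX_cont {w : ℝ≥0 → ℝ} (hw : Continuous w) (q : ℝ) : Continuous (XX q w) :=
  (continuous_const.mul ((SS_cont hw q).sub continuous_const)).sub hw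

lemma QQ_cont {w : ℝ≥0 → ℝ} (hw : Continuous w) (q : ℝ) : Continuous (QQ q w) :=
  (SS_cont hw q).sub hw

/-! ## the product space -/

/-- Lebesgue measure on the positive half-line -/
noncomputable def lp : Measure ℝ := (volume : Measure ℝ).restrict (Ioi 0)

instance : SigmaFinite lp := by unfold lp; infer_instance

variable {Ω : Type*} [mΩ : MeasurableSpace Ω] {P : Measure Ω} {W : ℝ≥0 → Ω → ℝ}

/-- the big filtration: the initial value and the past of the Brownian motion -/
@[reducible] def G0 (W : ℝ≥0 → Ω → ℝ) (s : ℝ≥0) : MeasurableSpace (ℝ × Ω) :=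
  @Prod.instMeasurableSpace ℝ Ω _ (Pst W s)

omit mΩ in
lemma G0_mono {s t : ℝ≥0} (hst : s ≤ t) : G0 W s ≤ G0 W t :=
  sup_le_sup le_rfl (MeasurableSpace.comap_mono (pst_mono hst))

lemma G0_le (hW : NBM P W) (s : ℝ≥0) : G0 W s ≤ (Prod.instMeasurableSpace : MeasurableSpace (ℝ × Ω)) :=
  sup_le_sup le_rfl (MeasurableSpace.comap_mono (pst_le hW s))

/-- the base measure -/
noncomputable def mb (P : Measure Ω) : Measure (ℝ × Ω) := lp.prod P

/-- factorisation -/
lemma lint_fac [IsProbabilityMeasure P] (hW : NBM P W) {s : ℝ≥0} {f : ℝ × Ω → ℝ≥0∞}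
    (hf : Measurable[G0 W s] f) {D : Ω → ℝ≥0∞} (hD : Measurable[Shf W s] D) :
    ∫⁻ p, f p * D p.2 ∂(mb P) = (∫⁻ p, f p ∂(mb P)) * ∫⁻ ω, D ω ∂P := by
  have hf' : Measurable f := hf.mono (G0_le hW s) le_rfl
  have hD' : Measurable D := hD.mono (shf_le hW s) le_rfl
  have hfm : Measurable (fun p : ℝ × Ω => f p * D p.2) := hf'.mul (hD'.comp measurable_snd)
  unfold mb
  rw [lintegral_prod _ hfm.aemeasurable,
    lintegral_prod _ hf'.aemeasurable, ← lintegral_mul_const _ hf'.lintegral_prod_right']
  refine lintegral_congr fun q => ?_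
  have h1 : Measurable[Pst W s] (fun ω => f (q, ω)) := by
    let _ := Pst W s
    exact hf.comp measurable_prodMk_left
  exact lintegral_mul_eq_lintegral_mul_lintegral_of_independent_measurableSpace
    (pst_le hW s) (shf_le hW s) (indep_pst_shf hW s) h1 hD

lemma meas_fac [IsProbabilityMeasure P] (hW : NBM P W) {s : ℝ≥0} {B : Set (ℝ × Ω)}
    (hB : MeasurableSet[G0 W s] B) {D : Set Ω} (hD : MeasurableSet[Shf W s] D) :
    mb P (B ∩ Prod.snd ⁻¹' D) = mb P B * P D := by
  have h := lint_fac hW (f := B.indicator 1) (D := D.indicator 1)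
    ((@measurable_const _ _ _ (G0 W s) (1 : ℝ≥0∞)).indicator hB)
    ((@measurable_const _ _ _ (Shf W s) (1 : ℝ≥0∞)).indicator hD)
  have hB' : MeasurableSet B := G0_le hW s _ hB
  have hD' : MeasurableSet D := shf_le hW s _ hD
  rw [lintegral_indicator_one hB', lintegral_indicator_one hD'] at h
  rw [← h, ← lintegral_indicator_one (hB'.inter (measurable_snd hD'))]
  refine lintegral_congr fun p => ?_
  by_cases h1 : p ∈ B <;> by_cases h2 : p.2 ∈ D <;> simp [h1, h2]

end Pool.Agent.H712P
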