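import Mathlib
import Pool.Agent.H712P.A5

set_option autoImplicit false

open scoped ENNReal NNReal Topology
open MeasureTheory ProbabilityTheory Set Filter

namespace Pool.Agent.H712P

/-- the process `S` on the product space -/
noncomputable def Sp {Ω : Type*} (W : ℝ≥0 → Ω → ℝ) (t : ℝ≥0) (p : ℝ × Ω) : ℝ :=
  SS p.1 (fun u => W u p.2) t

/-- the process `X` on the product space -/
noncomputable def Xp {Ω : Type*} (W : ℝ≥0 → Ω → ℝ) (t : ℝ≥0) (p : ℝ × Ω) : ℝ :=
  XX p.1 (fun u => W u p.2) t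

/-- the process `Q` on the product space -/
noncomputable def Qp {Ω : Type*} (W : ℝ≥0 → Ω → ℝ) (t : ℝ≥0) (p : ℝ × Ω) : ℝ :=
  QQ p.1 (fun u => W u p.2) t

variable {Ω : Type*} [mΩ : MeasurableSpace Ω] {P : Measure Ω} {W : ℝ≥0 → Ω → ℝ}

lemma meas_Sp (hW : NBM P W) {s t : ℝ≥0} (hst : s ≤ t) : Measurable[G0 W t] (Sp W s) := by
  have h1 : Measurable[Pst W t] (fun ω => rmax (fun u => W u ω) s) :=
    meas_rmax (Pst W t) hW.cont (fun u hu => meas_pst (hu.trans hst))
  let _ := Pst W t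
  exact measurable_fst.max (h1.comp measurable_snd)

omit mΩ in
lemma meas_Wp {s t : ℝ≥0} (hst : s ≤ t) : Measurable[G0 W t] (fun p : ℝ × Ω => W s p.2) := by
  have h1 : Measurable[Pst W t] (W s) := meas_pst hst
  let _ := Pst W t
  exact h1.comp measurable_snd

lemma meas_Xp (hW : NBM P W) {s t : ℝ≥0} (hst : s ≤ t) : Measurable[G0 W t] (Xp W s) := by
  have h1 := meas_Sp hW hst
  have h2 := meas_Sp hW (zero_le (a := t))
  have h3 := meas_Wp (W := W) hst
  let _ := G0 W t
  exact ((h1.sub h2).const_mul 2).sub h3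

lemma meas_Qp (hW : NBM P W) {s t : ℝ≥0} (hst : s ≤ t) : Measurable[G0 W t] (Qp W s) := by
  have h1 := meas_Sp hW hst
  have h3 := meas_Wp (W := W) hst
  let _ := G0 W t
  exact h1.sub h3

lemma measXp (hW : NBM P W) (t : ℝ≥0) : Measurable (Xp W t) :=
  (meas_Xp hW le_rfl).mono (G0_le hW t) le_rfl

lemma measQp (hW : NBM P W) (t : ℝ≥0) : Measurable (Qp W t) :=
  (meas_Qp hW le_rfl).mono (G0_le hW t) le_rfl

lemma measSp (hW : NBM P W) (t : ℝ≥0) : Measurable (Sp W t) :=
  (meas_Sp hW le_rfl).mono (G0_le hW t) le_rfl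

lemma good_step [IsProbabilityMeasure P] (hW : NBM P W) {s h : ℝ≥0} (hh : 0 < h)
    {A : Set (ℝ × Ω)} {κ : Measure ℝ} [IsFiniteMeasure κ] (hA : MeasurableSet[G0 W s] A)
    (hκ : ((mb P).restrict A).map (fun p => (Xp W s p, Qp W s p)) = κ.prod lp) :
    ((mb P).restrict A).map (fun p => (Xp W s p, (Xp W (s + h) p - Xp W s p, Qp W (s + h) p))) =
      κ.prod ((gaussianReal 0 h).prod lp) := by
  set Y : ℝ × Ω → ℝ × ℝ := fun p => (Xp W s p, Qp W s p) with hY
  set Z : Ω → ℝ × ℝ := fun ω => (rmax (fun u => W (s + u) ω - W s ω) h, W (s + h) ω - W s ω) with hZ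
  have hYG : Measurable[G0 W s] Y := by
    have h1 := meas_Xp hW (le_refl s)
    have h2 := meas_Qp hW (le_refl s)
    let _ := G0 W s
    exact h1.prodMk h2
  have hYm : Measurable Y := (measXp hW s).prodMk (measQp hW s)
  have hZS : Measurable[Shf W s] Z := by
    have h1 : Measurable[Shf W s] (fun ω => rmax (fun u => W (s + u) ω - W s ω) h) :=
      meas_rmax (Shf W s) (shift_nbm hW s).cont (fun u _ => meas_shf)
    have h2 : Measurable[Shf W s] (fun ω => W (s + h) ω - W s ω) := meas_shf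
    let _ := Shf W s
    exact h1.prodMk h2
  have hZm : Measurable Z := hZS.mono (shf_le hW s) le_rfl
  have hZlaw : P.map Z = (volume : Measure (ℝ × ℝ)).withDensity (den h) :=
    law_max (shift_nbm hW s) hh
  have hprob : IsProbabilityMeasure ((volume : Measure (ℝ × ℝ)).withDensity (den h)) := by
    rw [← hZlaw]
    exact Measure.isProbabilityMeasure_map hZm.aemeasurable
  have hYZm : Measurable (fun p : ℝ × Ω => (Y p, Z p.2)) := hYm.prodMk (hZm.comp measurable_snd)
  have hYZ : ((mb P).restrict A).map (fun p : ℝ × Ω => (Y p, Z p.2)) =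
      (κ.prod lp).prod ((volume : Measure (ℝ × ℝ)).withDensity (den h)) := by
    symm
    refine Measure.prod_eq fun C D hC hD => ?_
    rw [← hκ, ← hZlaw, Measure.map_apply hYZm (hC.prod hD), Measure.map_apply hYm hC,
      Measure.map_apply hZm hD, Measure.restrict_apply (hYZm (hC.prod hD)),
      Measure.restrict_apply (hYm hC), ← meas_fac hW (@MeasurableSet.inter _ (G0 W s) _ _ (hYG hC) hA) (hZS hD)]
    congr 1
    ext p
    constructor
    · rintro ⟨⟨h1, h2⟩, h3⟩
      exact ⟨⟨h1, h3⟩, h2⟩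
    · rintro ⟨⟨h1, h3⟩, h2⟩
      exact ⟨⟨h1, h2⟩, h3⟩
  have hΘm : Measurable (fun z : (ℝ × ℝ) × (ℝ × ℝ) => (z.1.1, th z.1.2 z.2)) := by
    refine (measurable_fst.comp measurable_fst).prodMk ?_
    exact th_meas.comp (f := fun z : (ℝ × ℝ) × (ℝ × ℝ) => (z.1.2, z.2)) (by fun_prop)
  have hcomp : (fun p => (Xp W s p, (Xp W (s + h) p - Xp W s p, Qp W (s + h) p))) =
      (fun z : (ℝ × ℝ) × (ℝ × ℝ) => (z.1.1, th z.1.2 z.2)) ∘
        (fun p : ℝ × Ω => (Y p, Z p.2)) := by
    funext p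
    simp only [Function.comp, Y, Z]
    rw [Prod.mk.injEq]
    exact ⟨rfl, step_th (hW.cont p.2) p.1 s h⟩
  rw [hcomp, ← Measure.map_map hΘm hYZm, hYZ]
  refine Measure.ext_of_lintegral _ fun F hF => ?_
  have hF1 : Measurable (fun z : (ℝ × ℝ) × (ℝ × ℝ) => F (z.1.1, th z.1.2 z.2)) := hF.comp hΘm
  rw [lintegral_map hF hΘm, lintegral_prod _ hF1.aemeasurable,
    lintegral_prod _ (hF1.lintegral_prod_right').aemeasurable, lintegral_prod _ hF.aemeasurable]
  refine lintegral_congr fun x => ?_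
  have hF2 : Measurable (fun p : ℝ × ℝ × ℝ => F (x, th p.1 p.2)) :=
    hF.comp (measurable_const.prodMk th_meas)
  have e := one_step hh
  have e2 : ∫⁻ y, F (x, y) ∂((lp.prod ((volume : Measure (ℝ × ℝ)).withDensity (den h))).map
      (fun p => th p.1 p.2)) = ∫⁻ y, F (x, y) ∂((gaussianReal 0 h).prod lp) := by
    unfold lp
    rw [e]
  have hFx : Measurable (fun y : ℝ × ℝ => F (x, y)) :=
    hF.comp (f := fun y : ℝ × ℝ => (x, y)) (by fun_prop)
  rw [lintegral_map hFx th_meas, lintegral_prod _ hF2.aemeasurable] at e2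
  exact e2

/-- at time `s` the queue length is independent of the past of `X` -/
structure Good (P : Measure Ω) (W : ℝ≥0 → Ω → ℝ) (s : ℝ≥0) (A : Set (ℝ × Ω)) : Prop where
  meas : MeasurableSet[G0 W s] A
  law : ∃ κ : Measure ℝ, IsFiniteMeasure κ ∧
    ((mb P).restrict A).map (fun p => (Xp W s p, Qp W s p)) = κ.prod lp

lemma good_univ [IsProbabilityMeasure P] (hW : NBM P W) : Good P W 0 (univ : Set (ℝ × Ω)) := by
  refine ⟨@MeasurableSet.univ _ (G0 W 0), Measure.dirac 0, inferInstance, ?_⟩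
  rw [Measure.restrict_univ]
  have h1 : ∀ᵐ p ∂(mb P), (Xp W 0 p, Qp W 0 p) = ((0 : ℝ), p.1) := by
    have h2 : ∀ᵐ p ∂(mb P), p.1 ∈ Ioi (0:ℝ) := by
      have h3 : ∀ᵐ q ∂lp, q ∈ Ioi (0:ℝ) := ae_restrict_mem measurableSet_Ioi
      unfold mb
      exact Measure.quasiMeasurePreserving_fst.ae h3
    filter_upwards [h2] with p hp
    unfold Xp Qp XX QQ SS
    rw [rmax_zero, hW.zero, max_eq_left (mem_Ioi.1 hp).le]
    ext
    · simp [hW.zero]
    · simp [hW.zero]
  rw [Measure.map_congr h1]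
  refine Measure.ext_of_lintegral _ fun F hF => ?_
  have hm : Measurable (fun p : ℝ × Ω => ((0 : ℝ), p.1)) := by fun_prop
  have hm2 : Measurable (fun p : ℝ × Ω => F ((0 : ℝ), p.1)) := hF.comp hm
  rw [lintegral_map hF hm, lintegral_prod _ hF.aemeasurable, lintegral_dirac' _
    hF.lintegral_prod_right']
  unfold mb
  rw [lintegral_prod _ hm2.aemeasurable]
  simp

lemma good_later [IsProbabilityMeasure P] (hW : NBM P W) {s t : ℝ≥0} (hst : s ≤ t)
    {A : Set (ℝ × Ω)} (hA : Good P W s A) : Good P W t A := by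
  rcases eq_or_lt_of_le hst with rfl | hlt
  · exact hA
  obtain ⟨h1, κ, hκ, h2⟩ := hA
  refine ⟨G0_mono hst _ h1, ?_⟩
  obtain ⟨h, rfl⟩ := exists_add_of_le hst
  have hh : 0 < h := by
    rcases eq_or_ne h 0 with rfl | hne
    · simp at hlt
    · exact pos_of_ne_zero hne
  have h3 := good_step hW hh h1 h2
  have hm : Measurable (fun z : ℝ × ℝ => z.1 + z.2) := by fun_prop
  refine ⟨(κ.prod (gaussianReal 0 h)).map (fun z => z.1 + z.2), inferInstance, ?_⟩
  have hm3 : Measurable (fun p => (Xp W s p, (Xp W (s + h) p - Xp W s p, Qp W (s + h) p))) :=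
    (measXp hW s).prodMk (((measXp hW _).sub (measXp hW s)).prodMk (measQp hW _))
  have hm4 : Measurable (fun z : ℝ × ℝ × ℝ => (z.1 + z.2.1, z.2.2)) := by fun_prop
  have hcomp : (fun p => (Xp W (s + h) p, Qp W (s + h) p)) =
      (fun z : ℝ × ℝ × ℝ => (z.1 + z.2.1, z.2.2)) ∘
      (fun p => (Xp W s p, (Xp W (s + h) p - Xp W s p, Qp W (s + h) p))) := by
    funext p
    simp
  rw [hcomp, ← Measure.map_map hm4 hm3, h3]
  refine Measure.ext_of_lintegral _ fun F hF => ?_
  have hF1 : Measurable (fun z : ℝ × ℝ × ℝ => F (z.1 + z.2.1, z.2.2)) := hF.comp hm4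
  have hF3 : Measurable (fun z : ℝ × ℝ => ∫⁻ y, F (z.1 + z.2, y) ∂lp) :=
    hF.lintegral_prod_right'.comp hm
  rw [lintegral_map hF hm4, lintegral_prod _ hF1.aemeasurable, lintegral_prod _ hF.aemeasurable,
    lintegral_map hF.lintegral_prod_right' hm,
    lintegral_prod _ hF3.aemeasurable]
  refine lintegral_congr fun x => ?_
  have hF2 : Measurable (fun z : ℝ × ℝ => F (x + z.1, z.2)) :=
    hF.comp (f := fun z : ℝ × ℝ => (x + z.1, z.2)) (by fun_prop)
  rw [lintegral_prod _ hF2.aemeasurable]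

lemma good_inter [IsProbabilityMeasure P] (hW : NBM P W) {s : ℝ≥0} {A : Set (ℝ × Ω)}
    (hA : Good P W s A) {C : Set ℝ} (hC : MeasurableSet C) :
    Good P W s (A ∩ Xp W s ⁻¹' C) := by
  obtain ⟨h1, κ, hκ, h2⟩ := hA
  have hm : Measurable (fun p => (Xp W s p, Qp W s p)) := (measXp hW s).prodMk (measQp hW s)
  refine ⟨?_, κ.restrict C, inferInstance, ?_⟩
  · have h3 := meas_Xp hW (le_refl s)
    exact @MeasurableSet.inter _ (G0 W s) _ _ h1 (h3 hC)
  · have e : Xp W s ⁻¹' C = (fun p => (Xp W s p, Qp W s p)) ⁻¹' (C ×ˢ univ) := by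
      ext p
      simp
    rw [inter_comm, e, ← Measure.restrict_restrict (hm (hC.prod MeasurableSet.univ)),
      ← Measure.restrict_map hm (hC.prod MeasurableSet.univ), h2,
      ← Measure.prod_restrict, Measure.restrict_univ]

/-- finite dimensional cylinders of `X` are good -/
lemma good_cyl [IsProbabilityMeasure P] (hW : NBM P W) (I : Finset ℝ≥0) :
    ∀ (v : ℝ≥0), (∀ u ∈ I, u ≤ v) → ∀ C : ℝ≥0 → Set ℝ, (∀ u ∈ I, MeasurableSet (C u)) →
      Good P W v (⋂ u ∈ I, Xp W u ⁻¹' (C u)) := by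
  classical
  induction I using Finset.induction_on_max with
  | empty =>
    intro v _ C _
    have : (⋂ u ∈ (∅ : Finset ℝ≥0), Xp W u ⁻¹' (C u)) = (univ : Set (ℝ × Ω)) := by simp
    rw [this]
    exact good_later hW zero_le (good_univ hW)
  | insert a I hlt ih =>
    intro v hv C hC
    have h1 := ih a (fun u hu => (hlt u hu).le) C (fun u hu => hC u (Finset.mem_insert_of_mem hu))
    have h2 := good_inter hW h1 (hC a (Finset.mem_insert_self _ _))
    have e : (⋂ u ∈ insert a I, Xp W u ⁻¹' (C u)) =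
        (⋂ u ∈ I, Xp W u ⁻¹' (C u)) ∩ Xp W a ⁻¹' (C a) := by
      rw [Finset.set_biInter_insert, inter_comm]
    rw [e]
    exact good_later hW (hv a (Finset.mem_insert_self _ _)) h2

end Pool.Agent.H712P
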