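import Mathlib
import Pool.Agent.H712P.A6

set_option autoImplicit false

open scoped ENNReal NNReal Topology
open MeasureTheory ProbabilityTheory Set Filter

namespace Pool.Agent.H712P

lemma tilt (h : ℝ≥0) : (gaussianReal 0 h).withDensity (fun x => ENNReal.ofReal (Real.exp (x - h / 2)))
    = gaussianReal h h := by
  rcases eq_or_ne h 0 with rfl | hh
  · rw [gaussianReal_zero_var, NNReal.coe_zero, gaussianReal_zero_var]
    have h1 : (fun x : ℝ => ENNReal.ofReal (Real.exp (x - 0 / 2))) =ᵐ[Measure.dirac 0] 1 := by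
      rw [Filter.EventuallyEq, ae_dirac_eq]
      simp
    rw [withDensity_congr_ae h1, withDensity_one]
  · have hh' : (0 : ℝ) < h := by
      have := pos_of_ne_zero hh
      exact_mod_cast this
    rw [gaussianReal_of_var_ne_zero _ hh, gaussianReal_of_var_ne_zero _ hh,
      ← withDensity_mul _ (measurable_gaussianPDF 0 h) (by fun_prop)]
    congr 1
    funext x
    simp only [Pi.mul_apply, gaussianPDF]
    rw [← ENNReal.ofReal_mul (gaussianPDFReal_nonneg 0 h x)]
    congr 1
    simp only [gaussianPDFReal]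
    rw [mul_assoc, ← Real.exp_add]
    congr 2
    field_simp
    ring

lemma tilt_lint (h : ℝ≥0) {C : Set ℝ} (hC : MeasurableSet C) :
    ∫⁻ x, C.indicator 1 x * ENNReal.ofReal (Real.exp (x - h / 2)) ∂(gaussianReal 0 h) =
      gaussianReal h h C := by
  rw [← tilt, withDensity_apply _ hC, ← lintegral_indicator hC]
  refine lintegral_congr fun x => ?_
  by_cases hx : x ∈ C <;> simp [hx]

lemma exp_lp : ∫⁻ q, ENNReal.ofReal (2 * Real.exp (-2 * q)) ∂lp = 1 := by
  unfold lp
  have h1 : ∀ x : ℝ, HasDerivAt (fun x => - Real.exp (-2 * x)) (2 * Real.exp (-2 * x)) x := by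
    intro x
    have h2 : HasDerivAt (fun x : ℝ => -2 * x) (-2) x := by
      simpa using (hasDerivAt_id x).const_mul (-2)
    have h3 := h2.exp.neg
    refine h3.congr_deriv ?_
    ring
  have hnn : ∀ x ∈ Ioi (0:ℝ), 0 ≤ 2 * Real.exp (-2 * x) := fun x _ => by positivity
  have hlim : Tendsto (fun x : ℝ => - Real.exp (-2 * x)) atTop (𝓝 0) := by
    have h2 : Tendsto (fun x : ℝ => 2 * x) atTop atTop := tendsto_id.const_mul_atTop (by norm_num)
    have h3 := (Real.tendsto_exp_neg_atTop_nhds_zero.comp h2).neg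
    rw [neg_zero] at h3
    refine h3.congr fun x => ?_
    simp only [Function.comp]
    congr 2
    ring
  have hi := integrableOn_Ioi_deriv_of_nonneg' (a := 0) (fun m _ => h1 m) hnn hlim
  have he := integral_Ioi_of_hasDerivAt_of_nonneg' (a := 0) (fun m _ => h1 m) hnn hlim
  rw [← ofReal_integral_eq_lintegral_ofReal hi ((ae_restrict_iff' measurableSet_Ioi).2
    (Eventually.of_forall hnn)), he]
  simp

variable {Ω : Type*} [mΩ : MeasurableSpace Ω] {P : Measure Ω} {W : ℝ≥0 → Ω → ℝ}

/-- the density -/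
noncomputable def zz (W : ℝ≥0 → Ω → ℝ) (t : ℝ≥0) (p : ℝ × Ω) : ℝ≥0∞ :=
  ENNReal.ofReal (2 * Real.exp (-2 * p.1)) * ENNReal.ofReal (Real.exp (W t p.2 - t / 2))

omit mΩ in
lemma meas_zz {s t : ℝ≥0} (hst : s ≤ t) : Measurable[G0 W t] (zz W s) := by
  have h1 := meas_Wp (W := W) hst
  unfold zz
  have h2 : Measurable[G0 W t] (fun p : ℝ × Ω => p.1) := by
    let _ := Pst W t
    exact measurable_fst
  let _ := G0 W t
  have h3 : Measurable (fun p : ℝ × Ω => ENNReal.ofReal (2 * Real.exp (-2 * p.1))) :=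
    (Real.measurable_exp.comp (h2.const_mul (-2))).const_mul 2 |>.ennreal_ofReal
  have h4 : Measurable (fun p : ℝ × Ω => ENNReal.ofReal (Real.exp (W s p.2 - s / 2))) :=
    (Real.measurable_exp.comp (h1.sub_const _)).ennreal_ofReal
  exact h3.mul h4

lemma meas_zz' (hW : NBM P W) (t : ℝ≥0) : Measurable (zz W t) :=
  (meas_zz le_rfl).mono (G0_le hW t) le_rfl

omit mΩ in
/-- multiplicativity of the density -/
lemma zz_mul (s h : ℝ≥0) (p : ℝ × Ω) : zz W (s + h) p =
    zz W s p * ENNReal.ofReal (Real.exp (W (s + h) p.2 - W s p.2 - h / 2)) := by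
  unfold zz
  rw [mul_assoc, ← ENNReal.ofReal_mul (Real.exp_pos _).le, ← Real.exp_add]
  congr 3
  push_cast
  ring

/-- factorisation of the density and the increments of `W` -/
lemma lint_zz [IsProbabilityMeasure P] (hW : NBM P W) {s h : ℝ≥0} {f : ℝ × Ω → ℝ≥0∞}
    (hf : Measurable[G0 W s] f) {C : Set ℝ} (hC : MeasurableSet C) :
    ∫⁻ p, f p * (C.indicator 1 (W (s + h) p.2 - W s p.2) * zz W (s + h) p) ∂(mb P) =
      (∫⁻ p, f p * zz W s p ∂(mb P)) * gaussianReal h h C := by
  have hm1 : Measurable (fun x : ℝ => C.indicator (1 : ℝ → ℝ≥0∞) x *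
      ENNReal.ofReal (Real.exp (x - h / 2))) := (measurable_one.indicator hC).mul (by fun_prop)
  have hD : Measurable[Shf W s] (fun ω => C.indicator (1 : ℝ → ℝ≥0∞) (W (s + h) ω - W s ω) *
      ENNReal.ofReal (Real.exp (W (s + h) ω - W s ω - h / 2))) := by
    have h1 : Measurable[Shf W s] (fun ω => W (s + h) ω - W s ω) := meas_shf
    exact hm1.comp h1
  have hf2 : Measurable[G0 W s] (fun p => f p * zz W s p) := by
    have h1 := meas_zz (W := W) (le_refl s)
    let _ := G0 W s
    exact hf.mul h1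
  have h2 := lint_fac hW hf2 hD
  have h3 : ∫⁻ ω, C.indicator (1 : ℝ → ℝ≥0∞) (W (s + h) ω - W s ω) *
      ENNReal.ofReal (Real.exp (W (s + h) ω - W s ω - h / 2)) ∂P = gaussianReal h h C := by
    rw [← tilt_lint h hC, ← ((shift_nbm hW s).pre.hasLaw_eval h).map_eq,
      lintegral_map hm1 ((shift_nbm hW s).meas h)]
  rw [h3] at h2
  rw [← h2]
  refine lintegral_congr fun p => ?_
  rw [zz_mul]
  ring

/-- the probability measure -/
noncomputable def P1 (P : Measure Ω) (W : ℝ≥0 → Ω → ℝ) : Measure (ℝ × Ω) :=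
  (mb P).withDensity (zz W 1)

lemma lint_P1 [IsProbabilityMeasure P] (hW : NBM P W) {t : ℝ≥0} (ht : t ≤ 1) {f : ℝ × Ω → ℝ≥0∞}
    (hf : Measurable[G0 W t] f) : ∫⁻ p, f p ∂(P1 P W) = ∫⁻ p, f p * zz W t p ∂(mb P) := by
  obtain ⟨h, hh⟩ := exists_add_of_le ht
  have hf' : Measurable f := hf.mono (G0_le hW t) le_rfl
  have h1 := lint_zz hW (h := h) hf MeasurableSet.univ
  rw [measure_univ, mul_one] at h1
  unfold P1
  rw [← h1, lintegral_withDensity_eq_lintegral_mul _ (meas_zz' hW 1) hf', ← hh]
  refine lintegral_congr fun p => ?_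
  simp [mul_comm]

lemma P1_apply [IsProbabilityMeasure P] (hW : NBM P W) {t : ℝ≥0} (ht : t ≤ 1) {B : Set (ℝ × Ω)}
    (hB : MeasurableSet[G0 W t] B) : P1 P W B = ∫⁻ p, B.indicator 1 p * zz W t p ∂(mb P) := by
  rw [← lint_P1 hW ht (f := B.indicator 1)
    ((@measurable_const _ _ _ (G0 W t) (1 : ℝ≥0∞)).indicator hB),
    lintegral_indicator_one (G0_le hW t _ hB)]

lemma P1_prob [IsProbabilityMeasure P] (hW : NBM P W) : IsProbabilityMeasure (P1 P W) := by
  constructor
  rw [P1_apply hW zero_le (@MeasurableSet.univ _ (G0 W 0))]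
  have h1 : ∀ p : ℝ × Ω, (univ : Set (ℝ × Ω)).indicator 1 p * zz W 0 p =
      ENNReal.ofReal (2 * Real.exp (-2 * p.1)) := by
    intro p
    unfold zz
    rw [hW.zero]
    simp
  simp_rw [h1]
  unfold mb
  have hm : Measurable (fun p : ℝ × Ω => ENNReal.ofReal (2 * Real.exp (-2 * p.1))) := by fun_prop
  rw [lintegral_prod _ hm.aemeasurable]
  simp only [lintegral_const, measure_univ, mul_one]
  exact exp_lp

/-- independence and law of the increments of `W` under `P1` -/
lemma P1_incr_W [IsProbabilityMeasure P] (hW : NBM P W) {s h : ℝ≥0} (hsh : s + h ≤ 1)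
    {B : Set (ℝ × Ω)} (hB : MeasurableSet[G0 W s] B) {C : Set ℝ} (hC : MeasurableSet C) :
    P1 P W (B ∩ {p | W (s + h) p.2 - W s p.2 ∈ C}) = P1 P W B * gaussianReal h h C := by
  have h1 : Measurable[G0 W (s + h)] (fun p : ℝ × Ω => W (s + h) p.2 - W s p.2) := by
    have a1 := meas_Wp (W := W) (le_refl (s + h))
    have a2 := meas_Wp (W := W) (le_self_add : s ≤ s + h)
    let _ := G0 W (s + h)
    exact a1.sub a2
  have hset : MeasurableSet[G0 W (s + h)] (B ∩ {p | W (s + h) p.2 - W s p.2 ∈ C}) :=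
    @MeasurableSet.inter _ (G0 W (s + h)) _ _ (G0_mono le_self_add _ hB) (h1 hC)
  rw [P1_apply hW hsh hset, P1_apply hW (le_self_add.trans hsh) hB,
    ← lint_zz hW (f := B.indicator 1)
      ((@measurable_const _ _ _ (G0 W s) (1 : ℝ≥0∞)).indicator hB) hC]
  refine lintegral_congr fun p => ?_
  by_cases hp : p ∈ B <;> by_cases hp2 : W (s + h) p.2 - W s p.2 ∈ C <;> simp [hp, hp2]

/-- independence and law of the increments of `X` under `P1` -/
lemma P1_incr_X [IsProbabilityMeasure P] (hW : NBM P W) {s h : ℝ≥0} (hh : 0 < h) (hsh : s + h ≤ 1)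
    {A : Set (ℝ × Ω)} (hA : Good P W s A) {C : Set ℝ} (hC : MeasurableSet C) :
    P1 P W (A ∩ {p | Xp W (s + h) p - Xp W s p ∈ C}) = P1 P W A * gaussianReal h h C := by
  obtain ⟨hAm, κ, hκ, hlaw⟩ := hA
  have hstep := good_step hW hh hAm hlaw
  have hAm' : MeasurableSet A := G0_le hW s _ hAm
  -- formula for every `C`
  have key : ∀ C : Set ℝ, MeasurableSet C →
      P1 P W (A ∩ {p | Xp W (s + h) p - Xp W s p ∈ C}) =
      (∫⁻ x, ENNReal.ofReal (Real.exp (x - s / 2)) ∂κ) * gaussianReal h h C := by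
    intro C hC
    have h1 : Measurable[G0 W (s + h)] (fun p : ℝ × Ω => Xp W (s + h) p - Xp W s p) := by
      have a1 := meas_Xp hW (le_refl (s + h))
      have a2 := meas_Xp hW (le_self_add : s ≤ s + h)
      let _ := G0 W (s + h)
      exact a1.sub a2
    have hset : MeasurableSet[G0 W (s + h)] (A ∩ {p | Xp W (s + h) p - Xp W s p ∈ C}) :=
      @MeasurableSet.inter _ (G0 W (s + h)) _ _ (G0_mono le_self_add _ hAm) (h1 hC)
    rw [P1_apply hW hsh hset]
    set F : ℝ × ℝ × ℝ → ℝ≥0∞ := fun z => ENNReal.ofReal (Real.exp (z.1 - s / 2)) *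
      ((C.indicator 1 z.2.1 * ENNReal.ofReal (Real.exp (z.2.1 - h / 2))) *
        ENNReal.ofReal (2 * Real.exp (-2 * z.2.2))) with hF
    have hm1 : Measurable (fun x : ℝ => C.indicator (1 : ℝ → ℝ≥0∞) x *
      ENNReal.ofReal (Real.exp (x - h / 2))) := (measurable_one.indicator hC).mul (by fun_prop)
    have hFm : Measurable F := by
      refine Measurable.mul (by fun_prop) (Measurable.mul ?_ (by fun_prop))
      exact hm1.comp (f := fun z : ℝ × ℝ × ℝ => z.2.1) (by fun_prop)
    have hm3 : Measurable (fun p => (Xp W s p, (Xp W (s + h) p - Xp W s p, Qp W (s + h) p))) :=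
      (measXp hW s).prodMk (((measXp hW _).sub (measXp hW s)).prodMk (measQp hW _))
    have h2 : ∀ᵐ p ∂(mb P), p.1 ∈ Ioi (0:ℝ) := by
      have h3 : ∀ᵐ q ∂lp, q ∈ Ioi (0:ℝ) := ae_restrict_mem measurableSet_Ioi
      unfold mb
      exact Measure.quasiMeasurePreserving_fst.ae h3
    have e1 : ∫⁻ p, (A ∩ {p | Xp W (s + h) p - Xp W s p ∈ C}).indicator 1 p * zz W (s + h) p ∂(mb P) =
        ∫⁻ p in A, F (Xp W s p, (Xp W (s + h) p - Xp W s p, Qp W (s + h) p)) ∂(mb P) := by
      rw [← lintegral_indicator hAm']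
      refine lintegral_congr_ae ?_
      filter_upwards [h2] with p hp
      by_cases hpA : p ∈ A
      · rw [indicator_of_mem (s := A) hpA]
        by_cases hpC : Xp W (s + h) p - Xp W s p ∈ C
        · rw [indicator_of_mem (show p ∈ A ∩ {p | Xp W (s + h) p - Xp W s p ∈ C} from ⟨hpA, hpC⟩)]
          simp only [F]
          rw [indicator_of_mem hpC]
          simp only [Pi.one_apply, one_mul]
          unfold zz
          rw [← ENNReal.ofReal_mul (by positivity), ← ENNReal.ofReal_mul (by positivity),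
            ← ENNReal.ofReal_mul (by positivity)]
          congr 1
          have e3 : W (s + h) p.2 = 2 * p.1 + Xp W (s + h) p - 2 * Qp W (s + h) p := by
            unfold Xp Qp XX QQ
            have : SS p.1 (fun u => W u p.2) 0 = p.1 := by
              unfold SS
              rw [rmax_zero, hW.zero, max_eq_left (mem_Ioi.1 hp).le]
            rw [this]
            ring
          rw [e3]
          have : ∀ a b c d : ℝ, 2 * Real.exp a * Real.exp b = Real.exp c * (Real.exp d * (2 *
              Real.exp (a + b - c - d))) := by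
            intro a b c d
            have : a + b = c + (d + (a + b - c - d)) := by ring
            rw [mul_assoc, ← Real.exp_add, this, Real.exp_add, Real.exp_add]
            ring_nf
          rw [this _ _ (Xp W s p - s / 2) (Xp W (s + h) p - Xp W s p - h / 2)]
          congr 4
          push_cast
          ring
        · rw [indicator_of_notMem (fun h => hpC h.2)]
          simp only [F]
          rw [indicator_of_notMem hpC]
          simp
      · rw [indicator_of_notMem (s := A) hpA, indicator_of_notMem (fun h => hpA h.1), zero_mul]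
    rw [e1, ← lintegral_map hFm hm3, hstep, lintegral_prod _ hFm.aemeasurable]
    have e2 : ∀ x, ∫⁻ y, F (x, y) ∂((gaussianReal 0 h).prod lp) =
        ENNReal.ofReal (Real.exp (x - s / 2)) * gaussianReal h h C := by
      intro x
      simp only [F]
      have hm2 : Measurable (fun q : ℝ => ENNReal.ofReal (2 * Real.exp (-2 * q))) := by fun_prop
      have e4 := lintegral_prod_mul (μ := gaussianReal 0 h) (ν := lp) hm1.aemeasurable
        hm2.aemeasurable
      rw [lintegral_const_mul _ (by
        refine Measurable.mul ?_ (by fun_prop)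
        exact hm1.comp (f := fun z : ℝ × ℝ => z.1) (by fun_prop)),
        e4, tilt_lint h hC, exp_lp, mul_one]
    simp_rw [e2]
    rw [lintegral_mul_const _ (by fun_prop)]
  have k2 := key univ MeasurableSet.univ
  rw [measure_univ, mul_one] at k2
  have e : A ∩ {p | Xp W (s + h) p - Xp W s p ∈ (univ : Set ℝ)} = A := by
    ext p
    simp
  rw [e] at k2
  rw [key C hC, k2]

end Pool.Agent.H712P
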