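import Mathlib

set_option autoImplicit false

open scoped ENNReal NNReal Topology
open MeasureTheory ProbabilityTheory Set Filter

namespace Pool.Agent.H712P

variable {Ω : Type*} {mΩ : MeasurableSpace Ω} {P : Measure Ω}

/-- Brownian motion with respect to a filtration, stopped at time `1` -/
structure BMon (P : Measure Ω) (𝓕 : Filtration ℝ≥0 mΩ) (M : ℝ≥0 → Ω → ℝ) : Prop where
  adp : ∀ t, Measurable[𝓕 t] (M t)
  zero : ∀ ω, M 0 ω = 0
  stop : ∀ t, 1 ≤ t → M t = M 1
  law : ∀ s h : ℝ≥0, 0 < h → s + h ≤ 1 →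
    P.map (fun ω => M (s + h) ω - M s ω) = gaussianReal 0 h
  ind : ∀ s h : ℝ≥0, 0 < h → s + h ≤ 1 →
    Indep (MeasurableSpace.comap (fun ω => M (s + h) ω - M s ω) inferInstance) (𝓕 s) P

variable {𝓕 : Filtration ℝ≥0 mΩ} {M : ℝ≥0 → Ω → ℝ}

lemma BMon.meas (hM : BMon P 𝓕 M) (t : ℝ≥0) : Measurable (M t) :=
  (hM.adp t).mono (𝓕.le t) le_rfl

lemma BMon.incr_memLp (hM : BMon P 𝓕 M) {s h : ℝ≥0} (hh : 0 < h) (hsh : s + h ≤ 1) :
    MemLp (fun ω => M (s + h) ω - M s ω) 2 P := by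
  have hm : Measurable (fun ω => M (s + h) ω - M s ω) := (hM.meas _).sub (hM.meas _)
  have h1 : MemLp id 2 (P.map (fun ω => M (s + h) ω - M s ω)) := by
    rw [hM.law s h hh hsh]
    exact memLp_id_gaussianReal 2
  exact (memLp_map_measure_iff aestronglyMeasurable_id hm.aemeasurable).1 h1

lemma BMon.memLp (hM : BMon P 𝓕 M) (t : ℝ≥0) : MemLp (M t) 2 P := by
  have key : ∀ t : ℝ≥0, t ≤ 1 → MemLp (M t) 2 P := by
    intro t ht
    rcases eq_or_ne t 0 with rfl | h0
    · have : M 0 = fun _ => 0 := funext hM.zero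
      rw [this]
      exact MemLp.zero'
    · have h1 := hM.incr_memLp (s := 0) (h := t) (pos_of_ne_zero h0) (by simpa using ht)
      have h2 : (fun ω => M (0 + t) ω - M 0 ω) = M t := by
        funext ω
        rw [zero_add, hM.zero, sub_zero]
      rwa [h2] at h1
  rcases le_total t 1 with ht | ht
  · exact key t ht
  · rw [hM.stop t ht]
    exact key 1 le_rfl

variable [IsProbabilityMeasure P]

lemma BMon.cond_incr (hM : BMon P 𝓕 M) {s h : ℝ≥0} (hh : 0 < h) (hsh : s + h ≤ 1) :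
    P[fun ω => M (s + h) ω - M s ω | 𝓕 s] =ᵐ[P] fun _ => 0 := by
  have hm : Measurable (fun ω => M (s + h) ω - M s ω) := (hM.meas _).sub (hM.meas _)
  have h1 := condExp_indep_eq (f := fun ω => M (s + h) ω - M s ω) hm.comap_le (𝓕.le s)
    (comap_measurable _).stronglyMeasurable (hM.ind s h hh hsh)
  have h2 : ∫ ω, (M (s + h) ω - M s ω) ∂P = 0 := by
    have h3 : ∫ x, x ∂(P.map (fun ω => M (s + h) ω - M s ω)) = 0 := by
      rw [hM.law s h hh hsh]
      exact integral_id_gaussianReal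
    rwa [integral_map hm.aemeasurable (by fun_prop)] at h3
  rw [h2] at h1
  exact h1

lemma BMon.cond_sq (hM : BMon P 𝓕 M) {s h : ℝ≥0} (hh : 0 < h) (hsh : s + h ≤ 1) :
    P[fun ω => (M (s + h) ω - M s ω) ^ 2 | 𝓕 s] =ᵐ[P] fun _ => (h : ℝ) := by
  have hm : Measurable (fun ω => M (s + h) ω - M s ω) := (hM.meas _).sub (hM.meas _)
  have h0 : Measurable[MeasurableSpace.comap (fun ω => M (s + h) ω - M s ω) inferInstance]
      (fun ω => (M (s + h) ω - M s ω) ^ 2) :=
    (measurable_id.pow_const 2).comp (comap_measurable _)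
  have h1 := condExp_indep_eq (f := fun ω => (M (s + h) ω - M s ω) ^ 2) hm.comap_le (𝓕.le s)
    h0.stronglyMeasurable (hM.ind s h hh hsh)
  have h2 : ∫ ω, (M (s + h) ω - M s ω) ^ 2 ∂P = h := by
    have h3 : ∫ x, x ^ 2 ∂(P.map (fun ω => M (s + h) ω - M s ω)) = h := by
      rw [hM.law s h hh hsh]
      have h4 := variance_fun_id_gaussianReal (μ := 0) (v := h)
      rw [variance_of_integral_eq_zero (by fun_prop) integral_id_gaussianReal] at h4
      exact h4
    rwa [integral_map hm.aemeasurable (by fun_prop)] at h3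
  rw [h2] at h1
  exact h1

lemma BMon.martingale (hM : BMon P 𝓕 M) : Martingale M 𝓕 P := by
  refine ⟨fun t => (hM.adp t).stronglyMeasurable, fun s t hst => ?_⟩
  have hint : ∀ t, Integrable (M t) P := fun t => (hM.memLp t).integrable one_le_two
  have hself : P[M s | 𝓕 s] = M s :=
    condExp_of_stronglyMeasurable (𝓕.le s) (hM.adp s).stronglyMeasurable (hint s)
  have key : ∀ t, s ≤ t → t ≤ 1 → P[M t | 𝓕 s] =ᵐ[P] M s := by
    intro t hst ht
    rcases eq_or_lt_of_le hst with rfl | hlt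
    · rw [hself]
    obtain ⟨h, rfl⟩ := exists_add_of_le hst
    have hh : 0 < h := by
      rcases eq_or_ne h 0 with rfl | hne
      · simp at hlt
      · exact pos_of_ne_zero hne
    have e : M (s + h) = M s + fun ω => M (s + h) ω - M s ω := by
      funext ω
      simp
    have h1 := condExp_add (μ := P) (hint s) ((hM.incr_memLp hh ht).integrable one_le_two) (𝓕 s)
    rw [← e] at h1
    filter_upwards [h1, hM.cond_incr hh ht] with ω h2 h3
    rw [h2, Pi.add_apply, h3, hself, add_zero]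
  rcases le_total t 1 with ht | ht
  · exact key t hst ht
  · rw [hM.stop t ht]
    rcases le_total s 1 with hs | hs
    · exact key 1 hs le_rfl
    · rw [← hM.stop s hs, hself]

lemma BMon.martingale_sq (hM : BMon P 𝓕 M) :
    Martingale (fun t ω => M t ω ^ 2 - ((min t 1 : ℝ≥0) : ℝ)) 𝓕 P := by
  refine ⟨fun t => (((hM.adp t).pow_const 2).sub_const _).stronglyMeasurable, fun s t hst => ?_⟩
  have hint : ∀ t, Integrable (fun ω => M t ω ^ 2 - ((min t 1 : ℝ≥0) : ℝ)) P := fun t =>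
    (hM.memLp t).integrable_sq.sub (integrable_const _)
  have hself : P[fun ω => M s ω ^ 2 - ((min s 1 : ℝ≥0) : ℝ) | 𝓕 s] =
      fun ω => M s ω ^ 2 - ((min s 1 : ℝ≥0) : ℝ) :=
    condExp_of_stronglyMeasurable (𝓕.le s) (((hM.adp s).pow_const 2).sub_const _).stronglyMeasurable
      (hint s)
  have key : ∀ t, s ≤ t → t ≤ 1 → P[fun ω => M t ω ^ 2 - ((min t 1 : ℝ≥0) : ℝ) | 𝓕 s] =ᵐ[P]
      fun ω => M s ω ^ 2 - ((min s 1 : ℝ≥0) : ℝ) := by
    intro t hst ht
    rcases eq_or_lt_of_le hst with rfl | hlt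
    · rw [hself]
    obtain ⟨h, rfl⟩ := exists_add_of_le hst
    have hh : 0 < h := by
      rcases eq_or_ne h 0 with rfl | hne
      · simp at hlt
      · exact pos_of_ne_zero hne
    have hi1 : Integrable (fun ω => (M (s + h) ω - M s ω) ^ 2) P :=
      (hM.incr_memLp hh ht).integrable_sq
    have hi2 : Integrable (fun ω => M (s + h) ω - M s ω) P :=
      (hM.incr_memLp hh ht).integrable one_le_two
    have hi3 : Integrable ((fun ω => 2 * M s ω) * fun ω => M (s + h) ω - M s ω) P :=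
      ((hM.memLp s).const_mul 2).integrable_mul (hM.incr_memLp hh ht)
    have c1 := condExp_mul_of_stronglyMeasurable_left (μ := P) (m := 𝓕 s)
      ((hM.adp s).const_mul 2).stronglyMeasurable hi3 hi2
    have e : (fun ω => M (s + h) ω ^ 2 - ((min (s + h) 1 : ℝ≥0) : ℝ)) =
        ((fun ω => (M (s + h) ω - M s ω) ^ 2) + ((fun ω => 2 * M s ω) *
          fun ω => M (s + h) ω - M s ω)) + fun ω => M s ω ^ 2 - ((min (s + h) 1 : ℝ≥0) : ℝ) := by
      funext ω
      simp only [Pi.add_apply, Pi.mul_apply]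
      ring
    have hi4 : Integrable (fun ω => M s ω ^ 2 - ((min (s + h) 1 : ℝ≥0) : ℝ)) P :=
      (hM.memLp s).integrable_sq.sub (integrable_const _)
    have c2 := condExp_add (μ := P) (hi1.add hi3) hi4 (𝓕 s)
    have c3 := condExp_add (μ := P) hi1 hi3 (𝓕 s)
    have c4 : P[fun ω => M s ω ^ 2 - ((min (s + h) 1 : ℝ≥0) : ℝ) | 𝓕 s] =
        fun ω => M s ω ^ 2 - ((min (s + h) 1 : ℝ≥0) : ℝ) :=
      condExp_of_stronglyMeasurable (𝓕.le s)
        (((hM.adp s).pow_const 2).sub_const _).stronglyMeasurable hi4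
    rw [e]
    filter_upwards [c1, c2, c3, hM.cond_incr hh ht, hM.cond_sq hh ht] with ω h1 h2 h3 h4 h5
    rw [h2, Pi.add_apply, h3, Pi.add_apply, h1, Pi.mul_apply, h4, h5, c4]
    rw [min_eq_left ht, min_eq_left (hst.trans ht)]
    push_cast
    ring
  rcases le_total t 1 with ht | ht
  · exact key t hst ht
  · have e1 : (fun ω => M t ω ^ 2 - ((min t 1 : ℝ≥0) : ℝ)) =
        fun ω => M 1 ω ^ 2 - ((min 1 1 : ℝ≥0) : ℝ) := by
      rw [hM.stop t ht, min_eq_right ht, min_self]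
    rcases le_total s 1 with hs | hs
    · show P[fun ω => M t ω ^ 2 - ((min t 1 : ℝ≥0) : ℝ) | 𝓕 s] =ᵐ[P] _
      rw [e1]
      exact key 1 hs le_rfl
    · have e2 : (fun ω => M s ω ^ 2 - ((min s 1 : ℝ≥0) : ℝ)) =
          fun ω => M 1 ω ^ 2 - ((min 1 1 : ℝ≥0) : ℝ) := by
        rw [hM.stop s hs, min_eq_right hs, min_self]
      show P[fun ω => M t ω ^ 2 - ((min t 1 : ℝ≥0) : ℝ) | 𝓕 s] =ᵐ[P]
        (fun ω => M s ω ^ 2 - ((min s 1 : ℝ≥0) : ℝ))
      rw [e1, ← e2, hself]

end Pool.Agent.H712P
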