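import Mathlib

/-!
# MP_e3daee_pr: definitions

Processes are indexed by `t : ℝ≥0`, filtrations are Mathlib's `Filtration ℝ≥0 mΩ`, martingales are
Mathlib's `Martingale`, and `Locally` is Mathlib's localisation of a property along a nondecreasing
sequence of stopping times tending to infinity.
-/

set_option autoImplicit false

open scoped ENNReal NNReal Topology
open MeasureTheory ProbabilityTheory Set Filter

namespace Pool.Agent.H712P

variable {Ω : Type*} {mΩ : MeasurableSpace Ω}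

/-- The `σ`-field of time zero of the filtration contains all `P`-null sets. -/
def HasNullSets (P : Measure Ω) (𝓕 : Filtration ℝ≥0 mΩ) : Prop :=
  ∀ A : Set Ω, P A = 0 → MeasurableSet[𝓕 0] A

/-- `M` is a continuous local martingale with respect to the filtration `𝓕`. -/
def IsContLocMart (P : Measure Ω) (𝓕 : Filtration ℝ≥0 mΩ) (M : ℝ≥0 → Ω → ℝ) : Prop :=
  (∀ ω, Continuous fun t => M t ω) ∧ (∀ t, Measurable[𝓕 t] (M t)) ∧
    Locally (fun X => Martingale X 𝓕 P) 𝓕 M P

/-- `A` is a continuous adapted process with `A_0 = 0`, whose paths have finite variation on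
compact intervals. -/
def IsContFV (𝓕 : Filtration ℝ≥0 mΩ) (A : ℝ≥0 → Ω → ℝ) : Prop :=
  (∀ ω, Continuous fun t => A t ω) ∧ (∀ t, Measurable[𝓕 t] (A t)) ∧ (∀ ω, A 0 ω = 0) ∧
    ∀ ω, LocallyBoundedVariationOn (fun t => A t ω) univ

/-- `V` is the quadratic variation `[N,N]` of the continuous local martingale `N`: a continuous
adapted nondecreasing process with `V_0 = 0` such that `N ^ 2 - V` is a continuous local
martingale. -/
def IsQuadVar (P : Measure Ω) (𝓕 : Filtration ℝ≥0 mΩ) (N V : ℝ≥0 → Ω → ℝ) : Prop :=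
  (∀ ω, Continuous fun t => V t ω) ∧ (∀ t, Measurable[𝓕 t] (V t)) ∧ (∀ ω, V 0 ω = 0) ∧
    (∀ ω, Monotone fun t => V t ω) ∧ IsContLocMart P 𝓕 (fun t ω => N t ω ^ 2 - V t ω)

/-- The decomposition `Y = N + A` of a continuous semimartingale. -/
def IsDecomp (P : Measure Ω) (𝓕 : Filtration ℝ≥0 mΩ) (Y N A : ℝ≥0 → Ω → ℝ) : Prop :=
  IsContLocMart P 𝓕 N ∧ IsContFV 𝓕 A ∧ ∀ t ω, Y t ω = N t ω + A t ω

/-- The function `a` is absolutely continuous with respect to the nondecreasing function `v` on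
compact time intervals: for every `T` and `ε > 0` there is `δ > 0` such that
`∑ |a (y k) - a (x k)| < ε` for all finite families of disjoint intervals `(x k, y k)` in
`[0, T]` with `∑ (v (y k) - v (x k)) < δ`. -/
def AC (a v : ℝ≥0 → ℝ) : Prop :=
  ∀ T : ℝ≥0, ∀ ε : ℝ, 0 < ε → ∃ δ : ℝ, 0 < δ ∧ ∀ (J : Finset ℕ) (x y : ℕ → ℝ≥0),
    (∀ k ∈ J, x k ≤ y k ∧ y k ≤ T) →
    (J : Set ℕ).PairwiseDisjoint (fun k => Ioo (x k) (y k)) →
    ∑ k ∈ J, (v (y k) - v (x k)) < δ → ∑ k ∈ J, |a (y k) - a (x k)| < ε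

end Pool.Agent.H712P
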