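import Mathlib
import Pool.Agent.H712P.A5
import Pool.Agent.H712P.Defs

set_option autoImplicit false

open scoped ENNReal NNReal Topology
open MeasureTheory ProbabilityTheory Set Filter

namespace Pool.Agent.H712P

/-- `S` is constant on the intervals on which `Q ≠ 0` -/
lemma SS_flat {w : ℝ≥0 → ℝ} (hw : Continuous w) (q : ℝ) {s t : ℝ≥0} (hst : s ≤ t)
    (h : ∀ u, s ≤ u → u ≤ t → QQ q w u ≠ 0) : SS q w t = SS q w s := by
  by_contra hne
  have hmono := SS_mono hw q
  have hlt : SS q w s < SS q w t := lt_of_le_of_ne (hmono hst) (Ne.symm hne)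
  have h1 : max q (rmax w s) < max q (rmax w t) := hlt
  have h2 : q < rmax w t := by
    by_contra hcon
    rw [max_eq_left (not_lt.1 hcon)] at h1
    exact absurd h1 (not_lt.2 (le_max_left _ _))
  rw [max_eq_right h2.le] at h1
  obtain ⟨u, hu, he⟩ := exists_rmax hw t
  have hsu : s ≤ u := by
    by_contra hcon
    have h3 := le_rmax hw (not_le.1 hcon).le
    rw [he] at h3
    exact absurd (h1.trans_le h3) (not_lt.2 (le_max_right _ _))
  refine h u hsu hu ?_
  unfold QQ
  have h4 : SS q w u ≤ SS q w t := hmono hu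
  have h5 : SS q w t = rmax w t := max_eq_right h2.le
  have h6 : w u ≤ SS q w u := (le_rmax hw le_rfl).trans (le_max_right _ _)
  linarith

/-- the process `A_t = 2 (S_t - S_0) - 2 t`, stopped at time `1` -/
noncomputable def AA (q : ℝ) (w : ℝ≥0 → ℝ) (t : ℝ≥0) : ℝ :=
  2 * (SS q w (min t 1) - SS q w 0) - 2 * ((min t 1 : ℝ≥0) : ℝ)

theorem not_ac {w : ℝ≥0 → ℝ} (hw : Continuous w) (q : ℝ)
    (hK : volume {x : ℝ | 0 ≤ x ∧ x ≤ 1 ∧ QQ q w x.toNNReal = 0} = 0)
    (hac : AC (AA q w) (fun t => ((min t 1 : ℝ≥0) : ℝ))) : SS q w 1 = SS q w 0 := by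
  classical
  have hmono := SS_mono hw q
  set K : Set ℝ := {x : ℝ | 0 ≤ x ∧ x ≤ 1 ∧ QQ q w x.toNNReal = 0} with hKdef
  have hKc : IsCompact K := by
    have h1 : IsClosed K := by
      have h2 : K = Icc (0:ℝ) 1 ∩ (fun x : ℝ => QQ q w x.toNNReal) ⁻¹' {0} := by
        ext x
        simp only [K, Set.mem_ofPred_eq, mem_inter_iff, mem_Icc, mem_preimage, mem_singleton_iff]
        tauto
      rw [h2]
      exact isClosed_Icc.inter (isClosed_singleton.preimage
        ((QQ_cont hw q).comp continuous_real_toNNReal))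
    exact isCompact_Icc.of_isClosed_subset h1 (fun x hx => ⟨hx.1, hx.2.1⟩)
  have hthick := tendsto_measure_cthickening_of_isCompact (μ := volume) hKc
  rw [hK] at hthick
  have hle : SS q w 0 ≤ SS q w 1 := hmono zero_le
  by_contra hne
  have hgap : 0 < SS q w 1 - SS q w 0 := by
    have := lt_of_le_of_ne hle (Ne.symm hne)
    linarith
  set ε : ℝ := (SS q w 1 - SS q w 0) / 2 with hε
  have hεpos : 0 < ε := by positivity
  obtain ⟨δ, hδ, hac⟩ := hac 1 ε hεpos
  have hδ' : 0 < min δ ε := lt_min hδ hεpos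
  -- choice of `N`
  have hN : ∃ N : ℕ, 0 < N ∧ volume (Metric.cthickening (1 / (N : ℝ)) K) <
      ENNReal.ofReal (min δ ε) := by
    have h1 : ∀ᶠ r in 𝓝 (0:ℝ), volume (Metric.cthickening r K) < ENNReal.ofReal (min δ ε) :=
      hthick.eventually (gt_mem_nhds (ENNReal.ofReal_pos.2 hδ'))
    have h2 : Tendsto (fun N : ℕ => 1 / (N : ℝ)) atTop (𝓝 0) := tendsto_one_div_atTop_nhds_zero_nat
    obtain ⟨N, hN1, hN2⟩ := ((h2.eventually h1).and (eventually_gt_atTop 0)).exists
    exact ⟨N, hN2, hN1⟩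
  obtain ⟨N, hN0, hNv⟩ := hN
  have hNr : (0 : ℝ) < N := by exact_mod_cast hN0
  set x : ℕ → ℝ≥0 := fun k => (k : ℝ≥0) / N with hx
  have hxr : ∀ k, ((x k : ℝ≥0) : ℝ) = (k : ℝ) / N := by
    intro k
    simp [x]
  have hx1 : ∀ k, x k ≤ x (k + 1) := by
    intro k
    rw [← NNReal.coe_le_coe, hxr, hxr]
    push_cast
    gcongr
    linarith
  have hxN : ∀ k, k < N → x (k + 1) ≤ 1 := by
    intro k hk
    rw [← NNReal.coe_le_coe, hxr]
    push_cast
    rw [div_le_one hNr]
    exact_mod_cast hk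
  set J : Finset ℕ := (Finset.range N).filter (fun k => ∃ u, x k ≤ u ∧ u ≤ x (k + 1) ∧
    QQ q w u = 0) with hJ
  have hJN : ∀ k ∈ J, k < N := fun k hk => Finset.mem_range.1 (Finset.mem_filter.1 hk).1
  -- the total length of the chosen intervals
  have hlen : ((J.card : ℝ) / N) < min δ ε := by
    have h1 : ENNReal.ofReal ((J.card : ℝ) / N) ≤ volume (Metric.cthickening (1 / (N : ℝ)) K) := by
      have h2 : (⋃ k ∈ J, Ioo ((k : ℝ) / N) (((k : ℝ) + 1) / N)) ⊆
          Metric.cthickening (1 / (N : ℝ)) K := by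
        intro z hz
        simp only [mem_iUnion] at hz
        obtain ⟨k, hk, hz⟩ := hz
        obtain ⟨u, hu1, hu2, hu3⟩ := (Finset.mem_filter.1 hk).2
        have hu1' : (k : ℝ) / N ≤ u := by
          rw [← hxr]
          exact_mod_cast hu1
        have hu2' : (u : ℝ) ≤ ((k : ℝ) + 1) / N := by
          have := hxr (k + 1)
          push_cast at this
          rw [← this]
          exact_mod_cast hu2
        have huK : (u : ℝ) ∈ K := by
          refine ⟨u.2, ?_, ?_⟩
          · have := hxN k (hJN k hk)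
            exact_mod_cast hu2.trans this
          · rw [Real.toNNReal_coe]
            exact hu3
        refine Metric.mem_cthickening_of_dist_le z u (1 / (N : ℝ)) K huK ?_
        rw [Real.dist_eq, abs_le]
        have h3 : ((k : ℝ) + 1) / N = (k : ℝ) / N + 1 / N := by ring
        have h4 := hz.1
        have h5 := hz.2
        rw [h3] at hu2' h5
        constructor <;> linarith
      have h3 : volume (⋃ k ∈ J, Ioo ((k : ℝ) / N) (((k : ℝ) + 1) / N)) =
          ∑ k ∈ J, volume (Ioo ((k : ℝ) / N) (((k : ℝ) + 1) / N)) := by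
        refine measure_biUnion_finset ?_ fun k _ => measurableSet_Ioo
        intro i _ j _ hij
        rw [Function.onFun, Set.disjoint_left]
        rintro z ⟨h1, h2⟩ ⟨h3, h4⟩
        rw [div_lt_iff₀ hNr] at h1 h3
        rw [lt_div_iff₀ hNr] at h2 h4
        have h5 : i < j + 1 := by
          have : (i : ℝ) < (j : ℝ) + 1 := by linarith
          exact_mod_cast this
        have h6 : j < i + 1 := by
          have : (j : ℝ) < (i : ℝ) + 1 := by linarith
          exact_mod_cast this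
        exact hij (by omega)
      have h4 : ∑ k ∈ J, volume (Ioo ((k : ℝ) / N) (((k : ℝ) + 1) / N)) =
          ENNReal.ofReal ((J.card : ℝ) / N) := by
        have h5 : ∀ k ∈ J, volume (Ioo ((k : ℝ) / N) (((k : ℝ) + 1) / N)) =
            ENNReal.ofReal (1 / N) := by
          intro k _
          rw [Real.volume_Ioo]
          congr 1
          ring
        rw [Finset.sum_congr rfl h5, Finset.sum_const, nsmul_eq_mul, ← ENNReal.ofReal_natCast,
          ← ENNReal.ofReal_mul (by positivity)]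
        congr 1
        ring
      rw [← h4, ← h3]
      exact measure_mono h2
    exact (ENNReal.ofReal_lt_ofReal_iff hδ').1 (h1.trans_lt hNv)
  have hdisj : (J : Set ℕ).PairwiseDisjoint (fun k => Ioo (x k) (x (k + 1))) := by
    intro i _ j _ hij
    rw [Function.onFun, Set.disjoint_left]
    rintro z ⟨h1, h2⟩ ⟨h3, h4⟩
    rw [← NNReal.coe_lt_coe, hxr] at h1 h2 h3 h4
    rw [div_lt_iff₀ hNr] at h1 h3
    push_cast at h2 h4
    rw [lt_div_iff₀ hNr] at h2 h4
    have h5 : i < j + 1 := by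
      have : (i : ℝ) < (j : ℝ) + 1 := by linarith
      exact_mod_cast this
    have h6 : j < i + 1 := by
      have : (j : ℝ) < (i : ℝ) + 1 := by linarith
      exact_mod_cast this
    exact hij (by omega)
  have hmin : ∀ k, k < N → min (x (k + 1)) 1 = x (k + 1) ∧ min (x k) 1 = x k := by
    intro k hk
    exact ⟨min_eq_left (hxN k hk), min_eq_left ((hx1 k).trans (hxN k hk))⟩
  have hstep : ∀ k, ((x (k + 1) : ℝ≥0) : ℝ) - x k = 1 / N := by
    intro k
    rw [hxr, hxr]
    push_cast
    ring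
  have hsum := hac J x (fun k => x (k + 1)) (fun k hk => ⟨hx1 k, hxN k (hJN k hk)⟩) hdisj (by
    have h1 : ∑ k ∈ J, (((min (x (k + 1)) 1 : ℝ≥0) : ℝ) - ((min (x k) 1 : ℝ≥0) : ℝ)) =
        (J.card : ℝ) / N := by
      have h2 : ∀ k ∈ J, (((min (x (k + 1)) 1 : ℝ≥0) : ℝ) - ((min (x k) 1 : ℝ≥0) : ℝ)) =
          1 / N := by
        intro k hk
        rw [(hmin k (hJN k hk)).1, (hmin k (hJN k hk)).2, hstep]
      rw [Finset.sum_congr rfl h2, Finset.sum_const, nsmul_eq_mul]
      ring
    show ∑ k ∈ J, (((min (x (k + 1)) 1 : ℝ≥0) : ℝ) - ((min (x k) 1 : ℝ≥0) : ℝ)) < δ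
    rw [h1]
    exact hlen.trans_le (min_le_left _ _))
  -- telescoping
  have htel : SS q w 1 - SS q w 0 = ∑ k ∈ Finset.range N, (SS q w (x (k + 1)) - SS q w (x k)) := by
    rw [Finset.sum_range_sub (fun k => SS q w (x k)) N]
    congr 2
    · have : x N = 1 := by
        rw [← NNReal.coe_inj, hxr]
        simp [hNr.ne']
      rw [this]
    · have : x 0 = 0 := by simp [x]
      rw [this]
  have hflat : ∑ k ∈ Finset.range N, (SS q w (x (k + 1)) - SS q w (x k)) =
      ∑ k ∈ J, (SS q w (x (k + 1)) - SS q w (x k)) := by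
    symm
    refine Finset.sum_subset (Finset.filter_subset _ _) fun k hk hkJ => ?_
    rw [SS_flat hw q (hx1 k), sub_self]
    intro u h1 h2 h3
    exact hkJ (Finset.mem_filter.2 ⟨hk, u, h1, h2, h3⟩)
  have hbound : ∑ k ∈ J, (SS q w (x (k + 1)) - SS q w (x k)) ≤
      (∑ k ∈ J, |AA q w (x (k + 1)) - AA q w (x k)|) / 2 + (J.card : ℝ) / N := by
    have h1 : ∀ k ∈ J, SS q w (x (k + 1)) - SS q w (x k) ≤
        |AA q w (x (k + 1)) - AA q w (x k)| / 2 + 1 / N := by
      intro k hk
      unfold AA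
      rw [(hmin k (hJN k hk)).1, (hmin k (hJN k hk)).2]
      have h2 := hstep k
      have h3 := le_abs_self (2 * (SS q w (x (k + 1)) - SS q w 0) - 2 * ((x (k + 1) : ℝ≥0) : ℝ) -
        (2 * (SS q w (x k) - SS q w 0) - 2 * ((x k : ℝ≥0) : ℝ)))
      linarith
    refine (Finset.sum_le_sum h1).trans (le_of_eq ?_)
    rw [Finset.sum_add_distrib, Finset.sum_div, Finset.sum_const, nsmul_eq_mul]
    ring
  have hlen2 := hlen.trans_le (min_le_right _ _)
  have : SS q w 1 - SS q w 0 < ε / 2 + ε := by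
    rw [htel, hflat]
    linarith
  have h2 : ε = (SS q w 1 - SS q w 0) / 2 := hε
  linarith

end Pool.Agent.H712P
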