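import Mathlib
import Pool.Agent.H712P.A7
import Pool.Agent.H712P.B1
import Pool.Agent.H712P.B2

set_option autoImplicit false

open scoped ENNReal NNReal Topology
open MeasureTheory ProbabilityTheory Set Filter

namespace Pool.Agent.H712P

section aug

/-- augmentation of a `σ`-field by the null sets -/
@[reducible] def augm {E : Type*} {mE : MeasurableSpace E} (μ : @Measure E mE)
    (m : MeasurableSpace E) : MeasurableSpace E :=
  @eventuallyMeasurableSpace E m (@ae E (@Measure E mE) _ _ μ) _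

lemma augm_mono {E : Type*} {mE : MeasurableSpace E} (μ : @Measure E mE) {m m' : MeasurableSpace E}
    (h : m ≤ m') : augm μ m ≤ augm μ m' := by
  rintro s ⟨t, ht, hst⟩
  exact ⟨t, h _ ht, hst⟩

lemma augm_le {E : Type*} {mE : MeasurableSpace E} (μ : @Measure E mE) {m : MeasurableSpace E}
    (h : m ≤ mE) :
    augm μ m ≤ @NullMeasurableSpace.instMeasurableSpace E mE μ := by
  rintro s ⟨t, ht, hst⟩
  exact ⟨t, h _ ht, hst⟩

lemma le_augm {E : Type*} {mE : MeasurableSpace E} (μ : @Measure E mE) (m : MeasurableSpace E) :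
    m ≤ augm μ m :=
  fun s hs => ⟨s, hs, Filter.EventuallyEq.rfl⟩

variable {E : Type*} [mE : MeasurableSpace E]

/-- the augmented filtration -/
def augFil (μ : Measure E) (m : ℝ≥0 → MeasurableSpace E) (hmono : Monotone m)
    (hle : ∀ t, m t ≤ mE) :
    Filtration ℝ≥0 (inferInstance : MeasurableSpace (NullMeasurableSpace E μ)) where
  seq t := augm μ (m t)
  mono' _ _ hst := augm_mono μ (hmono hst)
  le' t := augm_le μ (hle t)

lemma augFil_null (μ : Measure E) {m : ℝ≥0 → MeasurableSpace E} {hmono : Monotone m}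
    {hle : ∀ t, m t ≤ mE} : HasNullSets μ.completion (augFil μ m hmono hle) := by
  intro A hA
  refine ⟨∅, @MeasurableSet.empty _ (m 0), ?_⟩
  rw [Measure.completion_apply] at hA
  exact ae_eq_empty.2 hA

theorem bmon_aug (μ : Measure E) [IsProbabilityMeasure μ] {m : ℝ≥0 → MeasurableSpace E}
    {hmono : Monotone m} {hle : ∀ t, m t ≤ mE} {M : ℝ≥0 → E → ℝ}
    (adp : ∀ t, Measurable[m t] (M t)) (zero : ∀ ω, M 0 ω = 0) (stop : ∀ t, 1 ≤ t → M t = M 1)
    (fac : ∀ s h : ℝ≥0, 0 < h → s + h ≤ 1 → ∀ B, MeasurableSet[m s] B → ∀ C : Set ℝ,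
      MeasurableSet C → μ (B ∩ {p | M (s + h) p - M s p ∈ C}) = μ B * gaussianReal 0 h C) :
    BMon μ.completion (augFil μ m hmono hle) M := by
  have hlaw : ∀ s h : ℝ≥0, 0 < h → s + h ≤ 1 → ∀ C : Set ℝ, MeasurableSet C →
      μ {p | M (s + h) p - M s p ∈ C} = gaussianReal 0 h C := by
    intro s h hh hsh C hC
    have h1 := fac s h hh hsh univ (@MeasurableSet.univ _ (m s)) C hC
    rwa [univ_inter, measure_univ, one_mul] at h1
  have hMm : ∀ t, Measurable (M t) := fun t => (adp t).mono (hle t) le_rfl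
  refine ⟨fun t => (adp t).mono (le_augm μ (m t)) le_rfl, zero, stop, ?_, ?_⟩
  · intro s h hh hsh
    have hm : Measurable (fun ω => M (s + h) ω - M s ω) := (hMm _).sub (hMm _)
    refine (Pool.Agent.Helper41.BS.completion_map μ _ hm).trans ?_
    refine Measure.ext fun C hC => ?_
    rw [Measure.map_apply hm hC]
    exact hlaw s h hh hsh C hC
  · intro s h hh hsh
    rw [Indep_iff]
    rintro _ t2 ⟨C, hC, rfl⟩ ⟨B, hB, hBt⟩
    rw [Measure.completion_apply, Measure.completion_apply, Measure.completion_apply]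
    have key : ∀ t3 : Set E, t3 =ᵐ[μ] B → μ ((fun ω => M (s + h) ω - M s ω) ⁻¹' C ∩ t3) =
        μ ((fun ω => M (s + h) ω - M s ω) ⁻¹' C) * μ t3 := by
      intro t3 hBt
      have e1 : μ ((fun ω => M (s + h) ω - M s ω) ⁻¹' C ∩ t3) =
          μ (B ∩ {p | M (s + h) p - M s p ∈ C}) := by
        rw [inter_comm]
        exact measure_congr (Filter.EventuallyEq.inter hBt Filter.EventuallyEq.rfl)
      have e2 : μ t3 = μ B := measure_congr hBt
      rw [e1, e2, fac s h hh hsh B hB C hC, mul_comm]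
      congr 1
      exact (hlaw s h hh hsh C hC).symm
    exact key t2 hBt

end aug

variable {Ω : Type*} [mΩ : MeasurableSpace Ω] {P : Measure Ω} {W : ℝ≥0 → Ω → ℝ}

/-- the process `M` -/
noncomputable def Mp (W : ℝ≥0 → Ω → ℝ) (t : ℝ≥0) (p : ℝ × Ω) : ℝ :=
  Xp W (min t 1) p - ((min t 1 : ℝ≥0) : ℝ)

/-- the process `N` -/
noncomputable def Np (W : ℝ≥0 → Ω → ℝ) (t : ℝ≥0) (p : ℝ × Ω) : ℝ :=
  ((min t 1 : ℝ≥0) : ℝ) - W (min t 1) p.2

/-- the process `A` -/
noncomputable def Ap (W : ℝ≥0 → Ω → ℝ) (t : ℝ≥0) (p : ℝ × Ω) : ℝ :=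
  AA p.1 (fun u => W u p.2) t

omit mΩ in
lemma decomp_eq (t : ℝ≥0) (p : ℝ × Ω) : Mp W t p = Np W t p + Ap W t p := by
  unfold Mp Np Ap AA Xp XX
  ring

/-- the filtration generated by `M` -/
@[reducible] noncomputable def F0 (W : ℝ≥0 → Ω → ℝ) (t : ℝ≥0) : MeasurableSpace (ℝ × Ω) :=
  ⨆ u ∈ Iic t, MeasurableSpace.comap (Mp W u) inferInstance

lemma meas_Mp (hW : NBM P W) {s t : ℝ≥0} (hst : s ≤ t) : Measurable[G0 W t] (Mp W s) := by
  have h1 := meas_Xp hW ((min_le_left s 1).trans hst)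
  let _ := G0 W t
  exact h1.sub_const _

omit mΩ in
lemma F0_mono : Monotone (F0 W) := by
  intro s t hst
  exact biSup_mono fun u hu => le_trans (mem_Iic.1 hu) hst

lemma F0_le_G0 (hW : NBM P W) (t : ℝ≥0) : F0 W t ≤ G0 W t := by
  refine iSup₂_le fun u hu => ?_
  exact measurable_iff_comap_le.1 (meas_Mp hW hu)

lemma F0_le (hW : NBM P W) (t : ℝ≥0) : F0 W t ≤ (Prod.instMeasurableSpace : MeasurableSpace (ℝ × Ω)) :=
  (F0_le_G0 hW t).trans (G0_le hW t)

/-- factorisation for `M` -/
lemma fac_M [IsProbabilityMeasure P] (hW : NBM P W) (s h : ℝ≥0) (hh : 0 < h) (hsh : s + h ≤ 1)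
    (B : Set (ℝ × Ω)) (hB : MeasurableSet[F0 W s] B) (C : Set ℝ) (hC : MeasurableSet C) :
    P1 P W (B ∩ {p | Mp W (s + h) p - Mp W s p ∈ C}) = P1 P W B * gaussianReal 0 h C := by
  have hprob := P1_prob hW
  have hs1 : s ≤ 1 := le_self_add.trans hsh
  have hC' : MeasurableSet {x : ℝ | x - h ∈ C} := (measurable_id.sub_const (h : ℝ)) hC
  have hset : {p | Mp W (s + h) p - Mp W s p ∈ C} =
      {p : ℝ × Ω | Xp W (s + h) p - Xp W s p ∈ {x : ℝ | x - h ∈ C}} := by
    ext p
    simp only [Set.mem_ofPred_eq, Mp, min_eq_left hsh, min_eq_left hs1]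
    have : Xp W (s + h) p - ((s + h : ℝ≥0) : ℝ) - (Xp W s p - (s : ℝ)) =
        Xp W (s + h) p - Xp W s p - h := by
      push_cast
      ring
    rw [this]
  have hg : gaussianReal h h {x : ℝ | x - h ∈ C} = gaussianReal 0 h C := by
    have := gaussianReal_map_sub_const (μ := h) (v := h) (h : ℝ)
    rw [sub_self] at this
    rw [← this, Measure.map_apply (by fun_prop) hC]
    rfl
  have hgood : ∀ A, Good P W s A → P1 P W (A ∩ {p | Mp W (s + h) p - Mp W s p ∈ C}) =
      P1 P W A * gaussianReal 0 h C := by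
    intro A hA
    rw [hset, P1_incr_X hW hh hsh hA hC', hg]
  set D : Set (ℝ × Ω) := {p | Mp W (s + h) p - Mp W s p ∈ C} with hD
  have hle := F0_le hW s
  -- the two measures on `F0 s`
  have key : ((P1 P W).restrict D).trim hle = ((gaussianReal 0 h C) • P1 P W).trim hle := by
    have hgen : F0 W s = MeasurableSpace.generateFrom (piiUnionInter (fun u =>
        {s | MeasurableSet[MeasurableSpace.comap (Mp W u) inferInstance] s}) (Iic s)) :=
      (generateFrom_piiUnionInter_measurableSet _ _).symm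
    have hfin : IsFiniteMeasure (((P1 P W).restrict D).trim hle) := isFiniteMeasure_trim hle
    refine ext_of_generate_finite _ hgen (isPiSystem_piiUnionInter _ (fun u =>
      @MeasurableSpace.isPiSystem_measurableSet _ (MeasurableSpace.comap (Mp W u) inferInstance)) _)
      ?_ ?_
    · intro B hB
      have hBm : MeasurableSet[F0 W s] B := by
        rw [hgen]
        exact MeasurableSpace.measurableSet_generateFrom hB
      rw [trim_measurableSet_eq hle hBm, trim_measurableSet_eq hle hBm,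
        Measure.restrict_apply (hle _ hBm), Measure.smul_apply, smul_eq_mul, mul_comm]
      obtain ⟨I, hI, f, hf, rfl⟩ := hB
      choose! C' hC'1 hC'2 using hf
      refine hgood _ ?_
      have e : (⋂ u ∈ I, f u) = ⋂ u ∈ I, Xp W u ⁻¹' ((fun x : ℝ => x - u) ⁻¹' (C' u)) := by
        refine iInter₂_congr fun u hu => ?_
        rw [← hC'2 u hu]
        ext p
        have hu1 : u ≤ 1 := (mem_Iic.1 (hI hu)).trans hs1
        simp only [mem_preimage, Mp, min_eq_left hu1]
      rw [e]
      exact good_cyl hW I s (fun u hu => hI hu) _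
        (fun u hu => (measurable_id.sub_const (u : ℝ)) (hC'1 u hu))
    · rw [trim_measurableSet_eq hle (@MeasurableSet.univ _ (F0 W s)),
        trim_measurableSet_eq hle (@MeasurableSet.univ _ (F0 W s)),
        Measure.restrict_apply MeasurableSet.univ, Measure.smul_apply, smul_eq_mul, mul_comm]
      exact hgood _ (good_later hW zero_le (good_univ hW))
  have h1 := DFunLike.congr_fun key B
  rw [trim_measurableSet_eq hle hB, trim_measurableSet_eq hle hB,
    Measure.restrict_apply (hle _ hB), Measure.smul_apply, smul_eq_mul, mul_comm] at h1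
  exact h1

/-- factorisation for `N` -/
lemma fac_N [IsProbabilityMeasure P] (hW : NBM P W) (s h : ℝ≥0) (_ : 0 < h) (hsh : s + h ≤ 1)
    (B : Set (ℝ × Ω)) (hB : MeasurableSet[G0 W s] B) (C : Set ℝ) (hC : MeasurableSet C) :
    P1 P W (B ∩ {p | Np W (s + h) p - Np W s p ∈ C}) = P1 P W B * gaussianReal 0 h C := by
  have hs1 : s ≤ 1 := le_self_add.trans hsh
  have hC' : MeasurableSet {x : ℝ | h - x ∈ C} := (measurable_id.const_sub (h : ℝ)) hC
  have hset : {p | Np W (s + h) p - Np W s p ∈ C} =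
      {p : ℝ × Ω | W (s + h) p.2 - W s p.2 ∈ {x : ℝ | h - x ∈ C}} := by
    ext p
    simp only [Set.mem_ofPred_eq, Np, min_eq_left hsh, min_eq_left hs1]
    have : ((s + h : ℝ≥0) : ℝ) - W (s + h) p.2 - ((s : ℝ) - W s p.2) =
        h - (W (s + h) p.2 - W s p.2) := by
      push_cast
      ring
    rw [this]
  have hg : gaussianReal h h {x : ℝ | h - x ∈ C} = gaussianReal 0 h C := by
    have := gaussianReal_map_const_sub (μ := h) (v := h) (h : ℝ)
    rw [sub_self] at this
    rw [← this, Measure.map_apply (by fun_prop) hC]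
    rfl
  rw [hset, P1_incr_W hW hsh hB hC', hg]

lemma Mp_zero (hW : NBM P W) (p : ℝ × Ω) : Mp W 0 p = 0 := by
  unfold Mp Xp XX
  simp [hW.zero]

lemma Np_zero (hW : NBM P W) (p : ℝ × Ω) : Np W 0 p = 0 := by
  unfold Np
  simp [hW.zero]

omit mΩ in
lemma Mp_stop (t : ℝ≥0) (ht : 1 ≤ t) : Mp W t = Mp W 1 := by
  unfold Mp
  rw [min_eq_right ht, min_self]

omit mΩ in
lemma Np_stop (t : ℝ≥0) (ht : 1 ≤ t) : Np W t = Np W 1 := by
  unfold Np
  rw [min_eq_right ht, min_self]

lemma bmon_M [IsProbabilityMeasure P] (hW : NBM P W) :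
    BMon (P1 P W).completion (augFil (P1 P W) (F0 W) F0_mono (F0_le hW)) (Mp W) := by
  have hprob := P1_prob hW
  refine bmon_aug (P1 P W) (fun t => ?_) (Mp_zero hW) Mp_stop (fac_M hW)
  refine measurable_iff_comap_le.2 ?_
  exact le_iSup₂ (f := fun u (_ : u ∈ Iic t) => MeasurableSpace.comap (Mp W u) inferInstance) t
    (mem_Iic.2 le_rfl)

omit mΩ in
lemma meas_Np {t : ℝ≥0} : Measurable[G0 W t] (Np W t) := by
  have h1 := meas_Wp (W := W) (min_le_left t 1)
  let _ := G0 W t
  exact h1.const_sub _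

omit mΩ in
lemma G0_monotone : Monotone (G0 W) := fun _ _ h => G0_mono h

lemma bmon_N [IsProbabilityMeasure P] (hW : NBM P W) :
    BMon (P1 P W).completion (augFil (P1 P W) (G0 W) G0_monotone (G0_le hW)) (Np W) := by
  have hprob := P1_prob hW
  exact bmon_aug (P1 P W) (fun t => meas_Np) (Np_zero hW) Np_stop (fac_N hW)

end Pool.Agent.H712P
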