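import Mathlib
import Pool.Agent.H712P.B3

set_option autoImplicit false

open scoped ENNReal NNReal Topology
open MeasureTheory ProbabilityTheory Set Filter

namespace Pool.Agent.H712P

variable {Ω : Type*} [mΩ : MeasurableSpace Ω] {P : Measure Ω} {W : ℝ≥0 → Ω → ℝ}

lemma Qp_null [IsProbabilityMeasure P] (hW : NBM P W) (t : ℝ≥0) :
    P1 P W {p | Qp W t p = 0} = 0 := by
  obtain ⟨κ, hκ, h⟩ := (good_later hW (zero_le (a := t)) (good_univ hW)).law
  have hm : Measurable (fun p => (Xp W t p, Qp W t p)) := (measXp hW t).prodMk (measQp hW t)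
  have h1 : mb P {p | Qp W t p = 0} = 0 := by
    have h2 := DFunLike.congr_fun h (univ ×ˢ {(0:ℝ)})
    rw [Measure.restrict_univ, Measure.map_apply hm
      (MeasurableSet.univ.prod (measurableSet_singleton 0)), Measure.prod_prod] at h2
    have h3 : lp {(0:ℝ)} = 0 := by
      unfold lp
      exact le_antisymm ((Measure.restrict_apply_le _ _).trans (by simp)) zero_le
    rw [h3, mul_zero] at h2
    rw [← h2]
    congr 1
    ext p
    simp
  exact withDensity_absolutelyContinuous _ _ h1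

lemma zero_set [IsProbabilityMeasure P] (hW : NBM P W) :
    ∀ᵐ p ∂(P1 P W), volume {x : ℝ | 0 ≤ x ∧ x ≤ 1 ∧
      QQ p.1 (fun u => W u p.2) x.toNNReal = 0} = 0 := by
  have hprob := P1_prob hW
  have hmu : Measurable (Function.uncurry (fun (x : ℝ) (p : ℝ × Ω) => Qp W x.toNNReal p)) := by
    refine measurable_uncurry_of_continuous_of_measurable (fun p => ?_) (fun x => measQp hW _)
    exact (QQ_cont (hW.cont p.2) p.1).comp continuous_real_toNNReal
  have hmu2 : Measurable (fun z : (ℝ × Ω) × ℝ => Qp W z.2.toNNReal z.1) :=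
    hmu.comp (f := fun z : (ℝ × Ω) × ℝ => (z.2, z.1)) (by fun_prop)
  have hT : MeasurableSet {z : (ℝ × Ω) × ℝ | 0 ≤ z.2 ∧ z.2 ≤ 1 ∧ Qp W z.2.toNNReal z.1 = 0} :=
    (measurableSet_le measurable_const measurable_snd).inter
      ((measurableSet_le measurable_snd measurable_const).inter
        (hmu2 (measurableSet_singleton 0)))
  have h0 : ((P1 P W).prod volume) {z : (ℝ × Ω) × ℝ | 0 ≤ z.2 ∧ z.2 ≤ 1 ∧
      Qp W z.2.toNNReal z.1 = 0} = 0 := by
    rw [Measure.prod_apply_symm hT, lintegral_eq_zero_iff' (by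
      exact (measurable_measure_prodMk_right hT).aemeasurable)]
    refine Eventually.of_forall fun x => ?_
    refine measure_mono_null ?_ (Qp_null hW x.toNNReal)
    rintro p ⟨-, -, h⟩
    exact h
  exact Measure.measure_ae_null_of_prod_null h0

lemma max_grows [IsProbabilityMeasure P] (hW : NBM P W) :
    ¬ ∀ᵐ p ∂(P1 P W), SS p.1 (fun u => W u p.2) 1 = SS p.1 (fun u => W u p.2) 0 := by
  intro hcon
  have h1 : ∀ᵐ p ∂(mb P), SS p.1 (fun u => W u p.2) 1 = SS p.1 (fun u => W u p.2) 0 := by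
    have h2 : mb P ≪ P1 P W := by
      refine withDensity_absolutelyContinuous' (meas_zz' hW 1).aemeasurable ?_
      refine Eventually.of_forall fun p => ?_
      unfold zz
      refine mul_ne_zero ?_ ?_
      · exact (ENNReal.ofReal_pos.2 (by positivity)).ne'
      · exact (ENNReal.ofReal_pos.2 (by positivity)).ne'
    exact h2.ae_le hcon
  have h2 : ∀ᵐ p ∂(mb P), p.1 ∈ Ioi (0:ℝ) := by
    have h3 : ∀ᵐ q ∂lp, q ∈ Ioi (0:ℝ) := ae_restrict_mem measurableSet_Ioi
    unfold mb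
    exact Measure.quasiMeasurePreserving_fst.ae h3
  have h3 : ∀ᵐ p ∂(mb P), W 1 p.2 ≤ p.1 := by
    filter_upwards [h1, h2] with p hp1 hp2
    unfold SS at hp1
    rw [rmax_zero, hW.zero, max_eq_left (mem_Ioi.1 hp2).le] at hp1
    have h4 := le_rmax (hW.cont p.2) (le_refl 1)
    have h5 := le_max_right p.1 (rmax (fun u => W u p.2) 1)
    rw [hp1] at h5
    exact h4.trans h5
  have h4 : ∀ᵐ q ∂lp, ∀ᵐ ω ∂P, W 1 ω ≤ q := Measure.ae_ae_of_ae_prod h3
  have h5 : ∃ q : ℝ, ∀ᵐ ω ∂P, W 1 ω ≤ q := by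
    by_contra hne
    have h6 : ∀ᵐ q ∂lp, False := by
      filter_upwards [h4] with q hq
      exact hne ⟨q, hq⟩
    rw [ae_iff] at h6
    simp only [not_false_eq_true] at h6
    have h7 : lp univ = ∞ := by
      unfold lp
      rw [Measure.restrict_apply_univ, Real.volume_Ioi]
    have h8 : ({a : ℝ | True} : Set ℝ) = univ := by
      ext
      simp
    rw [h8, h7] at h6
    exact absurd h6 (by simp)
  obtain ⟨q, hq⟩ := h5
  have h6 : gaussianReal 0 1 (Ioi q) = 0 := by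
    rw [← (hW.pre.hasLaw_eval 1).map_eq, Measure.map_apply (hW.meas 1) measurableSet_Ioi]
    rw [ae_iff] at hq
    refine measure_mono_null ?_ hq
    intro ω hω
    exact not_le.2 hω
  have h7 : (volume : Measure ℝ) (Ioi q) = 0 :=
    gaussianReal_absolutelyContinuous' 0 one_ne_zero h6
  rw [Real.volume_Ioi] at h7
  exact absurd h7 (by simp)

lemma AA_cont {w : ℝ≥0 → ℝ} (hw : Continuous w) (q : ℝ) : Continuous (AA q w) := by
  have h1 := SS_cont hw q
  unfold AA
  have h2 : Continuous (fun t : ℝ≥0 => min t 1) := by fun_prop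
  have h3 : Continuous (fun t : ℝ≥0 => SS q w (min t 1)) := h1.comp h2
  have h4 : Continuous (fun t : ℝ≥0 => ((min t 1 : ℝ≥0) : ℝ)) := NNReal.continuous_coe.comp h2
  fun_prop

lemma ev_le {f G : ℝ≥0 → ℝ} {s : Set ℝ≥0} (h : ∀ x y, x ≤ y → |f y - f x| ≤ G y - G x) :
    eVariationOn f s ≤ eVariationOn G s := by
  unfold eVariationOn
  refine iSup_mono fun p => Finset.sum_le_sum fun i _ => ?_
  rw [edist_dist, edist_dist]
  apply ENNReal.ofReal_le_ofReal
  rw [Real.dist_eq, Real.dist_eq]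
  exact (h _ _ (p.2.2.1 (Nat.le_succ i))).trans (le_abs_self _)

lemma AA_fv {w : ℝ≥0 → ℝ} (hw : Continuous w) (q : ℝ) :
    LocallyBoundedVariationOn (AA q w) univ := by
  have h1 : Monotone (fun t : ℝ≥0 => 2 * (SS q w (min t 1) - SS q w 0)) := by
    intro s t hst
    have := SS_mono hw q (min_le_min hst (le_refl (1 : ℝ≥0)))
    simp only
    linarith
  have h2 : Monotone (fun t : ℝ≥0 => 2 * ((min t 1 : ℝ≥0) : ℝ)) := by
    intro s t hst
    have : ((min s 1 : ℝ≥0) : ℝ) ≤ ((min t 1 : ℝ≥0) : ℝ) := by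
      exact_mod_cast min_le_min hst (le_refl (1 : ℝ≥0))
    simp only
    linarith
  have h3 := (h1.add h2).monotoneOn univ |>.locallyBoundedVariationOn
  intro a b ha hb
  refine ne_top_of_le_ne_top (h3 a b ha hb) (ev_le fun x y hxy => ?_)
  have i1 := h1 hxy
  have i2 := h2 hxy
  simp only at i1 i2
  unfold AA
  rw [abs_le]
  constructor <;> linarith

lemma BMon.contLocMart {E : Type*} {mE : MeasurableSpace E} {μ : Measure E}
    [IsProbabilityMeasure μ] {𝓕 : Filtration ℝ≥0 mE} {M : ℝ≥0 → E → ℝ} (hM : BMon μ 𝓕 M)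
    (hc : ∀ ω, Continuous fun t => M t ω) : IsContLocMart μ 𝓕 M :=
  ⟨hc, hM.adp, Locally.of_prop hM.martingale⟩

lemma min_cont : Continuous (fun t : ℝ≥0 => ((min t 1 : ℝ≥0) : ℝ)) :=
  NNReal.continuous_coe.comp (by fun_prop)

lemma BMon.quadVar {E : Type*} {mE : MeasurableSpace E} {μ : Measure E}
    [IsProbabilityMeasure μ] {𝓕 : Filtration ℝ≥0 mE} {M : ℝ≥0 → E → ℝ} (hM : BMon μ 𝓕 M)
    (hc : ∀ ω, Continuous fun t => M t ω) :
    IsQuadVar μ 𝓕 M (fun t _ => ((min t 1 : ℝ≥0) : ℝ)) := by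
  refine ⟨fun _ => min_cont, fun t => measurable_const, fun _ => by simp, fun _ => ?_, ?_, ?_, ?_⟩
  · intro s t hst
    have : ((min s 1 : ℝ≥0) : ℝ) ≤ ((min t 1 : ℝ≥0) : ℝ) := by
      exact_mod_cast min_le_min hst (le_refl (1 : ℝ≥0))
    exact this
  · intro ω
    exact ((hc ω).pow 2).sub min_cont
  · intro t
    exact ((hM.adp t).pow_const 2).sub_const _
  · exact Locally.of_prop hM.martingale_sq

lemma Mp_cont (hW : NBM P W) (p : ℝ × Ω) : Continuous fun t => Mp W t p := by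
  unfold Mp
  refine Continuous.sub ?_ min_cont
  exact (XX_cont (hW.cont p.2) p.1).comp (by fun_prop)

lemma Np_cont (hW : NBM P W) (p : ℝ × Ω) : Continuous fun t => Np W t p := by
  unfold Np
  refine Continuous.sub min_cont ?_
  exact (hW.cont p.2).comp (by fun_prop)

lemma meas_Ap (hW : NBM P W) (t : ℝ≥0) : Measurable[G0 W t] (Ap W t) := by
  have h1 := meas_Sp hW (min_le_left t 1)
  have h2 := meas_Sp hW (zero_le (a := t))
  let _ := G0 W t
  exact ((h1.sub h2).const_mul 2).sub_const _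

/-- the main construction -/
theorem main : ∃ (Ω : Type) (mΩ : MeasurableSpace Ω) (P : Measure Ω) (_ : IsProbabilityMeasure P)
    (_ : P.IsComplete) (𝓕 𝓖 : Filtration ℝ≥0 mΩ) (M N A : ℝ≥0 → Ω → ℝ),
    HasNullSets P 𝓕 ∧ HasNullSets P 𝓖 ∧ 𝓕 ≤ 𝓖 ∧
    IsContLocMart P 𝓕 M ∧ IsQuadVar P 𝓕 M (fun t _ => ((min t 1 : ℝ≥0) : ℝ)) ∧
    IsDecomp P 𝓖 M N A ∧ IsQuadVar P 𝓖 N (fun t _ => ((min t 1 : ℝ≥0) : ℝ)) ∧
    ¬ ∀ᵐ ω ∂P, AC (fun t => A t ω) (fun t => ((min t 1 : ℝ≥0) : ℝ)) := by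
  obtain ⟨Ω, mΩ, P, hP, W, hW⟩ := exists_nbm
  have hprob := P1_prob hW
  have hprob' : IsProbabilityMeasure (P1 P W).completion := by
    constructor
    exact (Measure.completion_apply (P1 P W) _).trans hprob.measure_univ
  have hM := bmon_M hW
  have hN := bmon_N hW
  refine ⟨NullMeasurableSpace (ℝ × Ω) (P1 P W), inferInstance, (P1 P W).completion, hprob',
    Measure.completion.isComplete _, augFil (P1 P W) (F0 W) F0_mono (F0_le hW),
    augFil (P1 P W) (G0 W) G0_monotone (G0_le hW), Mp W, Np W, Ap W, augFil_null _,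
    augFil_null _, ?_, hM.contLocMart (Mp_cont hW), hM.quadVar (Mp_cont hW), ?_,
    hN.quadVar (Np_cont hW), ?_⟩
  · intro t
    exact augm_mono _ (F0_le_G0 hW t)
  · refine ⟨hN.contLocMart (Np_cont hW), ⟨fun p => AA_cont (hW.cont p.2) p.1, fun t => ?_,
      fun p => ?_, fun p => AA_fv (hW.cont p.2) p.1⟩, fun t p => decomp_eq t p⟩
    · exact (meas_Ap hW t).mono (le_augm (P1 P W) (G0 W t)) le_rfl
    · show AA p.1 (fun u => W u p.2) 0 = 0
      unfold AA
      simp
  · intro hcon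
    have h1 : ∀ᵐ p ∂(P1 P W), AC (fun t => Ap W t p) (fun t => ((min t 1 : ℝ≥0) : ℝ)) := by
      rw [ae_iff] at hcon ⊢
      exact (Measure.completion_apply (P1 P W) _).symm.trans hcon
    refine max_grows hW ?_
    filter_upwards [h1, zero_set hW] with p hp1 hp2
    exact not_ac (hW.cont p.2) p.1 hp2 hp1

end Pool.Agent.H712P
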